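import Pool.Agent.KMil.Two

/-!
The Milnor ring modulo a prime `p` of a field over which the values of the binary pieces
`n₁ - b n₂` of reduced norms generate the multiplicative group.
-/

set_option autoImplicit false

namespace Pool.Agent.KMil

universe u

open Finsupp

section genp

variable (p : ℕ) {F : Type u} [Field F]

theorem sym_pow (a : Fˣ) (n : ℕ) : sym p (a ^ n) = (n : ZMod p) • sym p a := by
  induction n with
  | zero => rw [pow_zero, sym_one, Nat.cast_zero, zero_smul]
  | succ n ih => rw [pow_succ, sym_mul, ih, Nat.cast_succ, add_smul, one_smul]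

theorem sym_ppow (a : Fˣ) : sym p (a ^ p) = 0 := by
  rw [sym_pow, ZMod.natCast_self, zero_smul]

theorem sym_of_ppow (hp : p ≠ 0) (a : Fˣ) (h : ∃ d : F, d ^ p = a) : sym p a = 0 := by
  obtain ⟨d, hd⟩ := h
  have hd0 : d ≠ 0 := by
    rintro rfl
    rw [zero_pow hp] at hd
    exact a.ne_zero hd.symm
  have e : a = Units.mk0 d hd0 ^ p := by
    apply Units.ext
    rw [Units.val_pow_eq_pow_val, Units.val_mk0, hd]
  rw [e, sym_ppow]

/-- the subgroup of the units generated by the non-zero values `x ^ p - a y ^ p` -/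
def BG (a : Fˣ) : Subgroup Fˣ := Subgroup.closure {n | ∃ x y : F, (n : F) = x ^ p - a * y ^ p}

/-- the units of the form `n₁ - b n₂` with `n₁`, `n₂` in `BG p a` or zero -/
def BV (a b : Fˣ) : Set Fˣ := {m | ∃ x y : F, (x = 0 ∨ ∃ n ∈ BG p a, (n : F) = x) ∧
  (y = 0 ∨ ∃ n ∈ BG p a, (n : F) = y) ∧ (m : F) = x - b * y}

/-- the left ideal generated by the linear annihilator of `{a}` -/
noncomputable def Jp (a : Fˣ) : Ideal (KM p F) :=
  Ideal.span {v | v ∈ KMn p F 1 ∧ v * sym p a = 0}

variable {p}

theorem bin_sym (hp : p ≠ 0) (a n : Fˣ) (x y : F) (h : (n : F) = x ^ p - a * y ^ p) :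
    sym p n * sym p a = 0 := by
  by_cases hx : x = 0
  · have hy : y ≠ 0 := by
      rintro rfl
      apply n.ne_zero
      rw [h, hx, zero_pow hp]
      ring
    have e : n = -a * Units.mk0 y hy ^ p := by
      apply Units.ext
      rw [h, hx, zero_pow hp]
      simp
    rw [e, sym_mul, sym_ppow, add_zero]
    have := sym_neg_self p (-a)
    rwa [neg_neg] at this
  · by_cases hy : y = 0
    · have e : n = Units.mk0 x hx ^ p := by
        apply Units.ext
        rw [h, hy, zero_pow hp]
        simp
      rw [e, sym_ppow, zero_mul]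
    · set u := Units.mk0 x hx with hu
      set v := Units.mk0 y hy with hv
      have k := sym_steinberg p (n * (u⁻¹) ^ p) (a * v ^ p * (u⁻¹) ^ p) (by
        simp only [Units.val_mul, Units.val_inv_eq_inv_val, Units.val_pow_eq_pow_val, hu, hv,
          Units.val_mk0]
        rw [h, inv_pow]
        field_simp
        ring)
      simp only [sym_mul, sym_ppow, add_zero] at k
      exact k

theorem BG_sym (hp : p ≠ 0) (a n : Fˣ) (h : n ∈ BG p a) : sym p n * sym p a = 0 := by
  unfold BG at h
  induction h using Subgroup.closure_induction with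
  | mem x hx =>
    obtain ⟨s, t, h⟩ := hx
    exact bin_sym hp a x s t h
  | one => rw [sym_one, zero_mul]
  | mul x y _ _ h1 h2 => rw [sym_mul, add_mul, h1, h2, add_zero]
  | inv x _ h1 => rw [sym_inv, neg_mul, h1, neg_zero]

theorem mem_Jp (hp : p ≠ 0) (a n : Fˣ) (h : n ∈ BG p a) : sym p n ∈ Jp p a :=
  Ideal.subset_span ⟨sym_mem p n, BG_sym hp a n h⟩

theorem Jp_mul (a : Fˣ) {z : KM p F} (hz : z ∈ Jp p a) : z * sym p a = 0 := by
  unfold Jp at hz
  induction hz using Submodule.span_induction with
  | mem x hx => exact hx.2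
  | zero => rw [zero_mul]
  | add x y _ _ h1 h2 => rw [add_mul, h1, h2, add_zero]
  | smul c x _ h1 => rw [smul_eq_mul, mul_assoc, h1, mul_zero]

/-- symbols with one entry in `BG p a` lie in the ideal -/
theorem Jp_left (hp : p ≠ 0) (a n c : Fˣ) (h : n ∈ BG p a) : sym p c * sym p n ∈ Jp p a :=
  Ideal.mul_mem_left _ _ (mem_Jp hp a n h)

theorem Jp_right (hp : p ≠ 0) (a n c : Fˣ) (h : n ∈ BG p a) : sym p n * sym p c ∈ Jp p a := by
  have e : sym p n * sym p c = -(sym p c * sym p n) :=
    eq_neg_of_add_eq_zero_left (sym_anticomm p n c)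
  rw [e]
  exact neg_mem (Jp_left hp a n c h)

theorem BV_mem (hp : p ≠ 0) (a b m : Fˣ) (h : m ∈ BV p a b) : sym p b * sym p m ∈ Jp p a := by
  obtain ⟨x, y, hx, hy, hm⟩ := h
  rcases hy with hy | ⟨n2, hn2, hy⟩
  · rcases hx with hx | ⟨n1, hn1, hx⟩
    · exfalso
      apply m.ne_zero
      rw [hm, hx, hy]
      ring
    · have e : m = n1 := by
        apply Units.ext
        rw [hm, hx, hy]
        ring
      rw [e]
      exact Jp_left hp a n1 b hn1
  · rcases hx with hx | ⟨n1, hn1, hx⟩
    · have e : m = -b * n2 := by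
        apply Units.ext
        rw [hm, hx, ← hy]
        simp
      rw [e, sym_mul, mul_add, sym_neg_self, zero_add]
      exact Jp_left hp a n2 b hn2
    · have k := sym_steinberg p (b * n2 * n1⁻¹) (m * n1⁻¹) (by
        simp only [Units.val_mul, Units.val_inv_eq_inv_val]
        rw [hm, ← hx, ← hy]
        field_simp
        ring)
      rw [sym_mul, sym_mul, sym_mul, sym_inv] at k
      have e : sym p b * sym p m = sym p b * sym p n1 - sym p n2 * sym p m + sym p n2 * sym p n1
          + sym p n1 * sym p m - sym p n1 * sym p n1 := by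
        have k' : (sym p b + sym p n2 + -sym p n1) * (sym p m + -sym p n1) =
          sym p b * sym p m - (sym p b * sym p n1 - sym p n2 * sym p m + sym p n2 * sym p n1
          + sym p n1 * sym p m - sym p n1 * sym p n1) := by noncomm_ring
        rw [k'] at k
        exact sub_eq_zero.1 k
      rw [e]
      refine sub_mem (add_mem (add_mem (sub_mem ?_ ?_) ?_) ?_) ?_
      · exact Jp_left hp a n1 b hn1
      · exact Jp_right hp a n2 m hn2
      · exact Jp_right hp a n2 n1 hn2
      · exact Jp_right hp a n1 m hn1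
      · exact Jp_right hp a n1 n1 hn1

theorem closure_mem (hp : p ≠ 0) (a b c : Fˣ) (h : c ∈ Subgroup.closure (BV p a b)) :
    sym p b * sym p c ∈ Jp p a := by
  induction h using Subgroup.closure_induction with
  | mem x hx => exact BV_mem hp a b x hx
  | one => rw [sym_one, mul_zero]; exact zero_mem _
  | mul x y _ _ h1 h2 => rw [sym_mul, mul_add]; exact add_mem h1 h2
  | inv x _ h1 => rw [sym_inv, mul_neg]; exact neg_mem h1

/-- every linear form is a symbol -/
theorem exists_symp [NeZero p] (v : KM p F) (hv : v ∈ KMn p F 1) : ∃ a : Fˣ, v = sym p a := by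
  induction hv using Submodule.span_induction with
  | mem x hx =>
    obtain ⟨l, hl, rfl⟩ := hx
    obtain ⟨a, rfl⟩ := List.length_eq_one_iff.1 hl
    exact ⟨a, by simp⟩
  | zero => exact ⟨1, (sym_one p).symm⟩
  | add x y _ _ h1 h2 =>
    obtain ⟨a, rfl⟩ := h1
    obtain ⟨b, rfl⟩ := h2
    exact ⟨a * b, (sym_mul p a b).symm⟩
  | smul c x _ h1 =>
    obtain ⟨a, rfl⟩ := h1
    refine ⟨a ^ c.val, ?_⟩
    rw [sym_pow, ZMod.natCast_zmod_val]

/-- the condition: for `a` not a `p`-th power and `b` outside `BG p a`, the values `n₁ - b n₂`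
generate the group of units -/
def BinaryNorms (p : ℕ) (F : Type u) [Field F] : Prop :=
  ∀ a b : Fˣ, (∃ d : F, d ^ p = a) ∨ b ∈ BG p a ∨ Subgroup.closure (BV p a b) = ⊤

section main

variable [hp : Fact p.Prime] (H : BinaryNorms p F)

include H

theorem pair_mem (a b c : Fˣ) (ha : ¬ ∃ d : F, d ^ p = a) : sym p b * sym p c ∈ Jp p a := by
  rcases H a b with h | h | h
  · exact absurd h ha
  · exact Jp_right hp.out.ne_zero a b c h
  · apply closure_mem hp.out.ne_zero
    rw [h]
    exact Subgroup.mem_top c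

theorem degree_two_p (a : Fˣ) (ha : ¬ ∃ d : F, d ^ p = a) (z : KM p F) (hz : z ∈ KMn p F 2) :
    z ∈ Jp p a := by
  induction hz using Submodule.span_induction with
  | mem x hx =>
    obtain ⟨l, hl, rfl⟩ := hx
    obtain ⟨b, c, rfl⟩ := List.length_eq_two.1 hl
    simpa using pair_mem H a b c ha
  | zero => exact zero_mem _
  | add x y _ _ h1 h2 => exact add_mem h1 h2
  | smul c x _ h1 =>
    rw [Algebra.smul_def]
    exact Ideal.mul_mem_left _ _ h1

theorem degree_three_p (n : ℕ) (z : KM p F) (hz : z ∈ KMn p F (n + 3)) : z = 0 := by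
  induction hz using Submodule.span_induction with
  | mem x hx =>
    obtain ⟨l, hl, rfl⟩ := hx
    obtain ⟨l1, a, rfl⟩ := (List.eq_nil_or_concat' l).resolve_left (by rintro rfl; simp at hl)
    rw [List.length_append, List.length_singleton] at hl
    obtain ⟨l2, c, rfl⟩ := (List.eq_nil_or_concat' l1).resolve_left (by rintro rfl; simp at hl)
    rw [List.length_append, List.length_singleton] at hl
    obtain ⟨l3, b, rfl⟩ := (List.eq_nil_or_concat' l2).resolve_left (by rintro rfl; simp at hl)
    have h0 : sym p b * sym p c * sym p a = 0 := by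
      by_cases ha : ∃ d : F, d ^ p = a
      · rw [sym_of_ppow p hp.out.ne_zero a ha, mul_zero]
      · exact Jp_mul a (pair_mem H a b c ha)
    simp only [List.map_append, List.map_cons, List.map_nil, List.prod_append, List.prod_cons,
      List.prod_nil, mul_one]
    rw [mul_assoc, mul_assoc, ← mul_assoc (sym p b), h0, mul_zero]
  | zero => rfl
  | add x y _ _ h1 h2 => rw [h1, h2, add_zero]
  | smul c x _ h1 => rw [h1, smul_zero]

theorem UK_p : UK (KMn p F) := by
  intro W _ x hx n hn z hz hzx
  obtain ⟨a, rfl⟩ := exists_symp x hx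
  rcases Nat.lt_or_ge n 2 with h1 | h1
  · obtain rfl : n = 1 := by omega
    exact Ideal.subset_span ⟨hz, hzx⟩
  · rcases Nat.lt_or_ge n 3 with h2 | h2
    · obtain rfl : n = 2 := by omega
      by_cases ha : ∃ d : F, d ^ p = a
      · refine Ideal.span_mono ?_ (KM_gen p 1 z hz)
        intro v hv
        refine ⟨hv, ?_⟩
        rw [sym_of_ppow p hp.out.ne_zero a ha, mul_zero]
        exact zero_mem _
      · refine Ideal.span_mono ?_ (degree_two_p H a ha z hz)
        rintro v ⟨hv, hv'⟩
        refine ⟨hv, ?_⟩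
        rw [hv']
        exact zero_mem _
    · obtain ⟨m, rfl⟩ : ∃ m, n = m + 3 := ⟨n - 3, by omega⟩
      rw [degree_three_p H m z hz]
      exact zero_mem _

theorem koszul_p : IsKoszul (KMn p F) :=
  koszul_of_UK (KM_zero p) (one_ne p) (KM_gen p) (UK_p H)

end main

end genp

end Pool.Agent.KMil
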