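import Mathlib

/-!
Universally Koszul algebras have a linear resolution of the base field (filtration argument with
well ordered generators; no finiteness assumption).
-/

set_option autoImplicit false

namespace Pool.Agent.KMil

universe u v

open Finsupp

variable {k : Type v} {A : Type u} [Field k] [Ring A] [Algebra k A]

/-- `𝒜` is a grading of the `k`-algebra `A` by non-negative integers with `𝒜 0 = k` -/
structure IsConnectedGrading (𝒜 : ℕ → Submodule k A) : Prop where
  one_ne : (1 : A) ≠ 0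
  zero : 𝒜 0 = Submodule.span k {1}
  mul : ∀ m n : ℕ, ∀ x ∈ 𝒜 m, ∀ y ∈ 𝒜 n, x * y ∈ 𝒜 (m + n)
  internal : DirectSum.IsInternal 𝒜

/-- The connected graded algebra `A` is Koszul: the residue field `A / A₊` has a resolution by free
graded modules, the `n`-th of which is generated in degree `n`. Here `d n` is a map from the free
module on `ι (n + 1)` (generators in degree `n + 1`) to the free module on `ι n` (generators in
degree `n`); it has degree zero, i.e. its matrix entries lie in `𝒜 1`; the module on `ι 0` is `A`,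
and the image of `d 0` is the augmentation ideal. -/
def IsKoszul (𝒜 : ℕ → Submodule k A) : Prop :=
  IsConnectedGrading 𝒜 ∧
  ∃ (ι : ℕ → Type u) (d : ∀ n, (ι (n + 1) →₀ A) →ₗ[A] (ι n →₀ A)) (o : ι 0),
    (∀ i : ι 0, i = o) ∧
    (∀ n i j, d n (single i 1) j ∈ 𝒜 1) ∧
    (∀ f : ι 0 →₀ A, f ∈ LinearMap.range (d 0) ↔ f o ∈ ⨆ n, 𝒜 (n + 1)) ∧
    ∀ n, LinearMap.ker (d n) = LinearMap.range (d (n + 1))

/-- all colon ideals `(W) : x` of ideals generated by linear forms are generated by linear forms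
(in positive degrees) -/
def UK (𝒜 : ℕ → Submodule k A) : Prop :=
  ∀ W : Submodule k A, W ≤ 𝒜 1 → ∀ x ∈ 𝒜 1, ∀ n, 1 ≤ n → ∀ a ∈ 𝒜 n,
    a * x ∈ Ideal.span (W : Set A) →
      a ∈ Ideal.span {v : A | v ∈ 𝒜 1 ∧ v * x ∈ Ideal.span (W : Set A)}

section

variable (𝒜 : ℕ → Submodule k A)

/-- linear leading coefficients at `i` -/
def Lin {ι : Type u} [LinearOrder ι] (M : Submodule A (ι →₀ A)) (i : ι) : Set A :=
  {v | v ∈ 𝒜 1 ∧ ∃ g ∈ M, g i = v ∧ (∀ j, i < j → g j = 0) ∧ ∀ j, g j ∈ 𝒜 1}

/-- all ideals of leading coefficients are generated by linear forms -/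
def Good {ι : Type u} [LinearOrder ι] (M : Submodule A (ι →₀ A)) : Prop :=
  ∀ i, ∀ f ∈ M, (∀ j, i < j → f j = 0) → f i ∈ Ideal.span (Lin 𝒜 M i)

end

variable {𝒜 : ℕ → Submodule k A}

/-- the linear leading coefficients form a subspace -/
def LinSub (𝒜 : ℕ → Submodule k A) {ι : Type u} [LinearOrder ι] (M : Submodule A (ι →₀ A)) (i : ι) :
    Submodule k A where
  carrier := Lin 𝒜 M i
  zero_mem' := ⟨zero_mem _, 0, zero_mem _, rfl, fun _ _ => rfl, fun _ => zero_mem _⟩
  add_mem' := by
    rintro a b ⟨ha, g, hg, hgi, hg1, hg2⟩ ⟨hb, g', hg', hgi', hg1', hg2'⟩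
    refine ⟨add_mem ha hb, g + g', add_mem hg hg', ?_, fun j hj => ?_, fun j => ?_⟩
    · rw [Finsupp.add_apply, hgi, hgi']
    · rw [Finsupp.add_apply, hg1 j hj, hg1' j hj, add_zero]
    · rw [Finsupp.add_apply]
      exact add_mem (hg2 j) (hg2' j)
  smul_mem' := by
    rintro c a ⟨ha, g, hg, hgi, hg1, hg2⟩
    refine ⟨Submodule.smul_mem _ c ha, algebraMap k A c • g, M.smul_mem _ hg, ?_, fun j hj => ?_,
      fun j => ?_⟩
    · rw [Finsupp.smul_apply, hgi, Algebra.smul_def, smul_eq_mul]
    · rw [Finsupp.smul_apply, hg1 j hj, smul_zero]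
    · rw [Finsupp.smul_apply, smul_eq_mul, ← Algebra.smul_def]
      exact Submodule.smul_mem _ c (hg2 j)

/-- bases with lifts -/
theorem exists_basis {ι : Type u} [LinearOrder ι] (M : Submodule A (ι →₀ A)) (i : ι) :
    ∃ (K : Type u) (_ : LinearOrder K) (_ : WellFoundedLT K) (u : K → A) (g : K → (ι →₀ A)),
      (∀ j, u j ∈ 𝒜 1) ∧ (∀ j, g j ∈ M) ∧ (∀ j, g j i = u j) ∧
      (∀ j i', i < i' → g j i' = 0) ∧ (∀ j i', g j i' ∈ 𝒜 1) ∧
      (∀ y ∈ Lin 𝒜 M i, y ∈ Submodule.span k (Set.range u)) ∧ LinearIndependent k u := by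
  classical
  let b := Module.Basis.ofVectorSpace k (LinSub 𝒜 M i)
  obtain ⟨lo, wf⟩ := exists_wellFoundedLT (Module.Basis.ofVectorSpaceIndex k (LinSub 𝒜 M i))
  have h : ∀ j : Module.Basis.ofVectorSpaceIndex k (LinSub 𝒜 M i), (b j : A) ∈ Lin 𝒜 M i :=
    fun j => (b j).2
  choose h1 g hg using h
  refine ⟨_, lo, wf, fun j => (b j : A), g, h1, fun j => (hg j).1, fun j => (hg j).2.1,
    fun j => (hg j).2.2.1, fun j => (hg j).2.2.2, ?_, ?_⟩
  · intro y hy
    have h2 : (⟨y, hy⟩ : LinSub 𝒜 M i) ∈ Submodule.span k (Set.range b) := by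
      rw [b.span_eq]
      trivial
    have h3 := Submodule.mem_map_of_mem (f := (LinSub 𝒜 M i).subtype) h2
    rw [Submodule.map_span, ← Set.range_comp] at h3
    exact h3
  · exact b.linearIndependent.map' (LinSub 𝒜 M i).subtype (Submodule.ker_subtype _)

/-- expansion of the elements of `M` in the chosen generators -/
theorem lift_aux {ι : Type u} [LinearOrder ι] [WellFoundedLT ι] {M : Submodule A (ι →₀ A)}
    (hM : Good 𝒜 M) {K : ι → Type u} {x : ∀ i, K i → A} {g : ∀ i, K i → (ι →₀ A)}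
    (hgM : ∀ i j, g i j ∈ M) (hgi : ∀ i j, g i j i = x i j)
    (hg0 : ∀ i j i', i < i' → g i j i' = 0) (hg1 : ∀ i j i', g i j i' ∈ 𝒜 1)
    (hspan : ∀ i, ∀ y ∈ Lin 𝒜 M i, y ∈ Submodule.span k (Set.range (x i)))
    (S T : AddSubgroup A) (hST : ∀ c ∈ S, ∀ y ∈ 𝒜 1, c * y ∈ T)
    (hT : ∀ i, ∀ y ∈ T, y ∈ Ideal.span (Set.range (x i)) →
      ∃ c : K i →₀ A, (∀ j, c j ∈ S) ∧ c.sum (fun j a => a • x i j) = y) :
    ∀ i, ∀ f ∈ M, (∀ j, f j ∈ T) → (∀ j, i < j → f j = 0) →
      ∃ c : (Sigma K) →₀ A, (∀ p, c p ∈ S) ∧ (∀ p : Sigma K, i < p.1 → c p = 0) ∧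
        linearCombination A (fun p : Sigma K => g p.1 p.2) c = f := by
  classical
  intro i
  induction i using WellFoundedLT.induction with
  | ind i ih =>
    intro f hf hfT hf0
    have h1 : f i ∈ Ideal.span (Set.range (x i)) := by
      refine Submodule.span_le.2 ?_ (hM i f hf hf0)
      intro y hy
      have h2 := hspan i y hy
      have h3 : Submodule.span k (Set.range (x i)) ≤
          (Ideal.span (Set.range (x i)) : Submodule A A).restrictScalars k := by
        rw [Submodule.span_le]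
        intro z hz
        exact Ideal.subset_span hz
      exact h3 h2
    obtain ⟨c0, hc0, hc0'⟩ := hT i (f i) (hfT i) h1
    set f' := f - linearCombination A (g i) c0 with hf'
    have hlc : ∀ j, linearCombination A (g i) c0 j = c0.sum (fun l a => a • g i l j) := by
      intro j
      rw [linearCombination_apply, Finsupp.sum, Finsupp.finsetSum_apply, Finsupp.sum]
      rfl
    have hlcM : linearCombination A (g i) c0 ∈ M := by
      rw [linearCombination_apply]
      exact Submodule.sum_mem _ fun l _ => M.smul_mem _ (hgM i l)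
    have hf'M : f' ∈ M := sub_mem hf hlcM
    have hlcT : ∀ j, linearCombination A (g i) c0 j ∈ T := by
      intro j
      rw [hlc]
      exact AddSubgroup.sum_mem _ fun l _ => hST _ (hc0 l) _ (hg1 i l j)
    have hf'T : ∀ j, f' j ∈ T := fun j => T.sub_mem (hfT j) (hlcT j)
    have hf'0 : ∀ j, i ≤ j → f' j = 0 := by
      intro j hj
      rcases hj.eq_or_lt with rfl | hj
      · change f i - linearCombination A (g i) c0 i = 0
        rw [hlc, ← hc0', sub_eq_zero]
        exact Finsupp.sum_congr fun l _ => by rw [hgi]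
      · change f j - linearCombination A (g i) c0 j = 0
        rw [hlc, hf0 j hj, zero_sub, neg_eq_zero]
        exact Finset.sum_eq_zero fun l _ => by simp only [hg0 i l j hj, smul_zero]
    have hc1 : ∀ p : Sigma K, mapDomain (Sigma.mk i) c0 p ∈ S := by
      rintro ⟨i', l⟩
      by_cases h : i' = i
      · subst h
        rw [mapDomain_apply sigma_mk_injective]
        exact hc0 l
      · rw [mapDomain_of_notMem_range]
        · exact S.zero_mem
        · rintro ⟨l', hl'⟩
          exact h (congrArg Sigma.fst hl').symm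
    have hc2 : ∀ p : Sigma K, i < p.1 → mapDomain (Sigma.mk i) c0 p = 0 := by
      rintro ⟨i', l⟩ h
      rw [mapDomain_of_notMem_range]
      rintro ⟨l', hl'⟩
      exact h.ne (congrArg Sigma.fst hl')
    have hc3 : linearCombination A (fun p : Sigma K => g p.1 p.2) (mapDomain (Sigma.mk i) c0) =
        linearCombination A (g i) c0 := by
      rw [linearCombination_mapDomain]
      rfl
    by_cases hz : f' = 0
    · refine ⟨mapDomain (Sigma.mk i) c0, hc1, hc2, ?_⟩
      rw [hc3]
      rw [hf', sub_eq_zero] at hz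
      exact hz.symm
    · have hne : f'.support.Nonempty := Finsupp.support_nonempty_iff.2 hz
      set m := f'.support.max' hne with hm
      have hmi : m < i := by
        by_contra h
        have h2 := f'.support.max'_mem hne
        rw [Finsupp.mem_support_iff] at h2
        exact h2 (hf'0 m (not_lt.1 h))
      obtain ⟨c', h1', h2', h3'⟩ := ih m hmi f' hf'M hf'T (fun j hj => by
        by_contra h
        exact absurd (f'.support.le_max' j (Finsupp.mem_support_iff.2 h)) (not_le.2 hj))
      refine ⟨c' + mapDomain (Sigma.mk i) c0, fun p => S.add_mem (h1' p) (hc1 p), fun p hp => ?_, ?_⟩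
      · rw [Finsupp.add_apply, h2' p (hmi.trans hp), hc2 p hp, add_zero]
      · rw [map_add, h3', hc3, hf', sub_add_cancel]

/-- the whole module is generated -/
theorem lift_top {ι : Type u} [LinearOrder ι] [WellFoundedLT ι] {M : Submodule A (ι →₀ A)}
    (hM : Good 𝒜 M) {K : ι → Type u} {x : ∀ i, K i → A} {g : ∀ i, K i → (ι →₀ A)}
    (hgM : ∀ i j, g i j ∈ M) (hgi : ∀ i j, g i j i = x i j)
    (hg0 : ∀ i j i', i < i' → g i j i' = 0) (hg1 : ∀ i j i', g i j i' ∈ 𝒜 1)
    (hspan : ∀ i, ∀ y ∈ Lin 𝒜 M i, y ∈ Submodule.span k (Set.range (x i))) :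
    LinearMap.range (linearCombination A (fun p : Sigma K => g p.1 p.2)) = M := by
  classical
  apply le_antisymm
  · rintro _ ⟨c, rfl⟩
    rw [linearCombination_apply]
    exact Submodule.sum_mem _ fun l _ => M.smul_mem _ (hgM _ _)
  · intro f hf
    by_cases hz : f = 0
    · rw [hz]
      exact zero_mem _
    · have hne : f.support.Nonempty := Finsupp.support_nonempty_iff.2 hz
      obtain ⟨c, -, -, h⟩ := lift_aux hM hgM hgi hg0 hg1 hspan ⊤ ⊤ (fun _ _ _ _ => trivial)
        (fun i y _ hy => by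
          obtain ⟨c, hc⟩ := Finsupp.mem_span_range_iff_exists_finsupp.1 hy
          exact ⟨c, fun _ => trivial, hc⟩)
        (f.support.max' hne) f hf (fun _ => trivial) (fun j hj => by
        by_contra h
        exact absurd (f.support.le_max' j (Finsupp.mem_support_iff.2 h)) (not_le.2 hj))
      exact ⟨c, h⟩

/-- degree `n + 1` part of an ideal generated by linear forms -/
theorem mem_comp [GradedAlgebra 𝒜] {K : Type u} {x : K → A} (hx : ∀ j, x j ∈ 𝒜 1) (s : Set K) (n : ℕ)
    {z : A} (hz : z ∈ Ideal.span (x '' s)) :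
    ∃ c : K →₀ A, (∀ j, c j ∈ 𝒜 n) ∧ (∀ j, j ∉ s → c j = 0) ∧
      c.sum (fun j a => a • x j) = (DirectSum.decompose 𝒜 z (n + 1) : A) := by
  classical
  obtain ⟨c, hc, rfl⟩ := (Finsupp.mem_span_image_iff_linearCombination A).1 hz
  refine ⟨c.mapRange (fun a => (DirectSum.decompose 𝒜 a n : A)) (by simp), fun j => ?_,
    fun j hj => ?_, ?_⟩
  · rw [mapRange_apply]
    exact SetLike.coe_mem _
  · rw [mapRange_apply]
    have : c j = 0 := by
      by_contra h
      exact hj (hc (Finsupp.mem_support_iff.2 h))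
    rw [this]
    simp
  · rw [Finsupp.sum_mapRange_index (by intro j; rw [zero_smul]), linearCombination_apply, Finsupp.sum,
      Finsupp.sum, DirectSum.decompose_sum, DFinsupp.finsetSum_apply, AddSubmonoidClass.coe_finsetSum]
    refine Finset.sum_congr rfl fun j _ => ?_
    rw [smul_eq_mul, smul_eq_mul, DirectSum.coe_decompose_mul_add_of_right_mem 𝒜 (hx j)]

theorem span_coe {K : Type u} (x : K → A) (s : Set K) :
    Ideal.span ((Submodule.span k (x '' s) : Submodule k A) : Set A) = Ideal.span (x '' s) := by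
  apply le_antisymm
  · rw [Ideal.span_le]
    have h3 : Submodule.span k (x '' s) ≤
        (Ideal.span (x '' s) : Submodule A A).restrictScalars k := by
      rw [Submodule.span_le]
      intro z hz
      exact Ideal.subset_span hz
    exact h3
  · exact Ideal.span_mono Submodule.subset_span

theorem lex_lt_of {ι : Type u} [LinearOrder ι] {K : ι → Type u} [∀ i, LinearOrder (K i)] {i : ι}
    {l l' : K i} (h : l < l') :
    (toLex ⟨i, l⟩ : _root_.Lex (Sigma K)) < (toLex ⟨i, l'⟩ : _root_.Lex (Sigma K)) :=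
  Sigma.Lex.right _ _ h

/-- the kernel is good again -/
theorem good_ker [GradedAlgebra 𝒜] (h0 : 𝒜 0 = Submodule.span k {1}) (hUK : UK 𝒜)
    {ι : Type u} [LinearOrder ι] [WellFoundedLT ι] {M : Submodule A (ι →₀ A)}
    (hM : Good 𝒜 M) {K : ι → Type u} [∀ i, LinearOrder (K i)] {x : ∀ i, K i → A}
    {g : ∀ i, K i → (ι →₀ A)}
    (hx : ∀ i j, x i j ∈ 𝒜 1) (hgM : ∀ i j, g i j ∈ M) (hgi : ∀ i j, g i j i = x i j)
    (hg0 : ∀ i j i', i < i' → g i j i' = 0) (hg1 : ∀ i j i', g i j i' ∈ 𝒜 1)
    (hspan : ∀ i, ∀ y ∈ Lin 𝒜 M i, y ∈ Submodule.span k (Set.range (x i)))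
    (hli : ∀ i, LinearIndependent k (x i)) :
    Good (ι := _root_.Lex (Sigma K)) 𝒜
      (LinearMap.ker (linearCombination A (fun p : _root_.Lex (Sigma K) => g p.1 p.2))) := by
  classical
  rintro ⟨i, j0⟩ f hf hf0
  set p : _root_.Lex (Sigma K) := ⟨i, j0⟩ with hp
  rw [LinearMap.mem_ker] at hf
  set W : Submodule k A := Submodule.span k (x i '' Set.Iio j0) with hW
  have hW1 : W ≤ 𝒜 1 := by
    rw [hW, Submodule.span_le]
    rintro _ ⟨j, -, rfl⟩
    exact hx i j
  have hWspan : Ideal.span (W : Set A) = Ideal.span (x i '' Set.Iio j0) := span_coe _ _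
  -- step 1
  have s1 : f p * x i j0 ∈ Ideal.span (W : Set A) := by
    have e1 : (linearCombination A (fun p : _root_.Lex (Sigma K) => g p.1 p.2) f) i =
        ∑ q ∈ f.support, f q * g q.1 q.2 i := by
      rw [linearCombination_apply, Finsupp.sum, Finsupp.finsetSum_apply]
      rfl
    rw [hf, Finsupp.zero_apply] at e1
    by_cases hps : p ∈ f.support
    · rw [← Finset.add_sum_erase _ _ hps] at e1
      have e2 : f p * x i j0 = -∑ q ∈ f.support.erase p, f q * g q.1 q.2 i := by
        have e3 : f p * g p.1 p.2 i = f p * x i j0 := by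
          rw [← hgi i j0]
        rw [e3] at e1
        exact eq_neg_of_add_eq_zero_left e1.symm
      rw [e2]
      refine neg_mem (Submodule.sum_mem _ fun q hq => ?_)
      have hq1 : q ≠ p := Finset.ne_of_mem_erase hq
      have hq2 : q ∈ f.support := Finset.mem_of_mem_erase hq
      have hq3 : q < p := by
        rcases lt_trichotomy q p with h | h | h
        · exact h
        · exact absurd h hq1
        · exact absurd (hf0 q h) (Finsupp.mem_support_iff.1 hq2)
      obtain ⟨i', j'⟩ := q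
      rcases Sigma.Lex.lt_def.1 hq3 with h | ⟨h, h'⟩
      · have : g i' j' i = 0 := hg0 i' j' i h
        change f _ * g i' j' i ∈ _
        rw [this, mul_zero]
        exact zero_mem _
      · have h'' : i' = i := h
        subst h''
        change f _ * g i' j' i' ∈ _
        rw [hgi]
        refine Ideal.mul_mem_left _ _ ?_
        rw [hWspan]
        exact Ideal.subset_span ⟨j', h', rfl⟩
    · rw [Finsupp.notMem_support_iff.1 hps, zero_mul]
      exact zero_mem _
  -- linear colon elements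
  have s5 : ∀ v ∈ 𝒜 1, v * x i j0 ∈ Ideal.span (W : Set A) →
      v ∈ Lin 𝒜 (LinearMap.ker (linearCombination A
        (fun p : _root_.Lex (Sigma K) => g p.1 p.2))) p := by
    intro v hv hvx
    rw [hWspan] at hvx
    obtain ⟨c, hc1, hc2, hc3⟩ := mem_comp (hx i) (Set.Iio j0) 1 hvx
    have hv2 : v * x i j0 ∈ 𝒜 (1 + 1) := SetLike.GradedMul.mul_mem hv (hx i j0)
    rw [DirectSum.decompose_of_mem_same 𝒜 hv2] at hc3
    set h := v • g i j0 - linearCombination A (g i) c with hh
    have hlc : ∀ j, linearCombination A (g i) c j = c.sum (fun l a => a • g i l j) := by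
      intro j
      rw [linearCombination_apply, Finsupp.sum, Finsupp.finsetSum_apply, Finsupp.sum]
      rfl
    have hhM : h ∈ M := by
      refine sub_mem (M.smul_mem _ (hgM i j0)) ?_
      rw [linearCombination_apply]
      exact Submodule.sum_mem _ fun l _ => M.smul_mem _ (hgM i l)
    have hhT : ∀ j, h j ∈ 𝒜 2 := by
      intro j
      refine sub_mem ?_ ?_
      · exact SetLike.GradedMul.mul_mem (i := 1) (j := 1) hv (hg1 i j0 j)
      · rw [hlc]
        exact Submodule.sum_mem _ fun l _ =>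
          SetLike.GradedMul.mul_mem (i := 1) (j := 1) (hc1 l) (hg1 i l j)
    have hh0 : ∀ j, i ≤ j → h j = 0 := by
      intro j hj
      rcases hj.eq_or_lt with rfl | hj
      · change v • g i j0 i - linearCombination A (g i) c i = 0
        rw [hlc, hgi, smul_eq_mul, ← hc3, sub_eq_zero]
        exact Finsupp.sum_congr fun l _ => by rw [hgi]
      · change v • g i j0 j - linearCombination A (g i) c j = 0
        rw [hlc, hg0 i j0 j hj, smul_zero, zero_sub, neg_eq_zero]
        exact Finset.sum_eq_zero fun l _ => by simp only [hg0 i l j hj, smul_zero]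
    obtain ⟨c', hc'1, hc'2, hc'3⟩ : ∃ c' : (Sigma K) →₀ A, (∀ q, c' q ∈ 𝒜 1) ∧
        (∀ q : Sigma K, i ≤ q.1 → c' q = 0) ∧
        linearCombination A (fun p : Sigma K => g p.1 p.2) c' = h := by
      by_cases hz : h = 0
      · exact ⟨0, fun _ => zero_mem _, fun _ _ => rfl, by rw [map_zero, hz]⟩
      · have hne : h.support.Nonempty := Finsupp.support_nonempty_iff.2 hz
        obtain ⟨c', h1, h2, h3⟩ := lift_aux hM hgM hgi hg0 hg1 hspan (𝒜 1).toAddSubgroup
          (𝒜 2).toAddSubgroup
          (fun c hc y hy => SetLike.GradedMul.mul_mem (i := 1) (j := 1) hc hy)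
          (fun i y hy2 hy => by
            rw [← Set.image_univ] at hy
            obtain ⟨c, hc1, -, hc3⟩ := mem_comp (hx i) Set.univ 1 hy
            refine ⟨c, hc1, ?_⟩
            rw [hc3]
            exact DirectSum.decompose_of_mem_same 𝒜 hy2)
          (h.support.max' hne) h hhM hhT (fun j hj => by
            by_contra h'
            exact absurd (h.support.le_max' j (Finsupp.mem_support_iff.2 h')) (not_le.2 hj))
        refine ⟨c', h1, fun q hq => h2 q (lt_of_lt_of_le ?_ hq), h3⟩
        by_contra h'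
        have h4 := h.support.max'_mem hne
        rw [Finsupp.mem_support_iff] at h4
        exact h4 (hh0 _ (not_lt.1 h'))
    have hcm : ∀ q : Sigma K, mapDomain (Sigma.mk i) c q ∈ 𝒜 1 := by
      rintro ⟨i', l⟩
      by_cases h : i' = i
      · subst h
        rw [mapDomain_apply sigma_mk_injective]
        exact hc1 l
      · rw [mapDomain_of_notMem_range]
        · exact zero_mem _
        · rintro ⟨l', hl'⟩
          exact h (congrArg Sigma.fst hl').symm
    have hcm2 : ∀ q : Sigma K, (∀ l : K i, l < j0 → q ≠ ⟨i, l⟩) →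
        mapDomain (Sigma.mk i) c q = 0 := by
      rintro ⟨i', l⟩ hq
      by_cases h : i' = i
      · subst h
        rw [mapDomain_apply sigma_mk_injective]
        apply hc2
        intro hl
        exact hq l hl rfl
      · rw [mapDomain_of_notMem_range]
        rintro ⟨l', hl'⟩
        exact h (congrArg Sigma.fst hl').symm
    refine ⟨hv, (single (⟨i, j0⟩ : Sigma K) v - mapDomain (Sigma.mk i) c - c' : (Sigma K) →₀ A),
      ?_, ?_, ?_, ?_⟩
    · rw [LinearMap.mem_ker]
      change linearCombination A (fun p : Sigma K => g p.1 p.2)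
        (single (⟨i, j0⟩ : Sigma K) v - mapDomain (Sigma.mk i) c - c') = 0
      rw [map_sub, map_sub, hc'3, linearCombination_mapDomain, linearCombination_single, hh]
      exact sub_self _
    · change (single (⟨i, j0⟩ : Sigma K) v) (⟨i, j0⟩ : Sigma K) -
        mapDomain (Sigma.mk i) c (⟨i, j0⟩ : Sigma K) - c' (⟨i, j0⟩ : Sigma K) = v
      rw [single_eq_same, hc'2 _ le_rfl, hcm2, sub_zero, sub_zero]
      intro l hl h
      rw [Sigma.mk.injEq] at h
      exact hl.ne (eq_of_heq h.2).symm
    · intro q hq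
      change (single (⟨i, j0⟩ : Sigma K) v) q -
        mapDomain (Sigma.mk i) c q - c' q = 0
      obtain ⟨i', l⟩ := q
      have hq' : i < i' ∨ ∃ h : i = i', h.rec j0 < l := Sigma.Lex.lt_def.1 hq
      have hle : i ≤ i' := by
        rcases hq' with h | ⟨h, -⟩
        · exact h.le
        · exact h.le
      have h1 : (single (⟨i, j0⟩ : Sigma K) v) (⟨i', l⟩ : Sigma K) = 0 := by
        rw [single_eq_of_ne]
        intro h
        have h2 : (⟨i', l⟩ : _root_.Lex (Sigma K)) = p := h
        rw [h2] at hq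
        exact lt_irrefl _ hq
      rw [hc'2 _ hle, h1, hcm2, sub_zero, sub_zero]
      intro l' hl' h
      have h3 : (toLex ⟨i', l⟩ : _root_.Lex (Sigma K)) = toLex ⟨i, l'⟩ := h
      have hq2 : p < (toLex ⟨i, l'⟩ : _root_.Lex (Sigma K)) := by
        rw [← h3]
        exact hq
      exact lt_asymm hq2 (lex_lt_of hl')
    · intro q
      change (single (⟨i, j0⟩ : Sigma K) v) q -
        mapDomain (Sigma.mk i) c q - c' q ∈ 𝒜 1
      refine sub_mem (sub_mem ?_ (hcm q)) (hc'1 q)
      by_cases h : (⟨i, j0⟩ : Sigma K) = q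
      · rw [← h, single_eq_same]
        exact hv
      · rw [single_eq_of_ne (Ne.symm h)]
        exact zero_mem _
  -- step 2
  have s2 : ∀ n, (DirectSum.decompose 𝒜 (f p) n : A) * x i j0 ∈ Ideal.span (W : Set A) := by
    intro n
    rw [hWspan] at s1 ⊢
    obtain ⟨c, hc1, hc2, hc3⟩ := mem_comp (hx i) (Set.Iio j0) n s1
    rw [DirectSum.coe_decompose_mul_add_of_right_mem 𝒜 (hx i j0)] at hc3
    rw [← hc3]
    refine Submodule.sum_mem _ fun j hj => ?_
    refine Submodule.smul_mem _ _ (Ideal.subset_span ⟨j, ?_, rfl⟩)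
    by_contra h
    exact (Finsupp.mem_support_iff.1 hj) (hc2 j h)
  have s3 : (DirectSum.decompose 𝒜 (f p) 0 : A) = 0 := by
    have h1 : (DirectSum.decompose 𝒜 (f p) 0 : A) ∈ Submodule.span k {(1 : A)} := by
      rw [← h0]
      exact SetLike.coe_mem _
    obtain ⟨c, hc⟩ := Submodule.mem_span_singleton.1 h1
    by_cases hc0 : c = 0
    · rw [← hc, hc0, zero_smul]
    · exfalso
      have h2 := s2 0
      rw [← hc, hWspan] at h2
      obtain ⟨e, he1, he2, he3⟩ := mem_comp (hx i) (Set.Iio j0) 0 h2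
      have h3 : c • (1 : A) * x i j0 = c • x i j0 := by
        rw [smul_mul_assoc, one_mul]
      rw [h3, zero_add, DirectSum.decompose_of_mem_same 𝒜 ((𝒜 1).smul_mem c (hx i j0))] at he3
      have h4 : c • x i j0 ∈ W := by
        rw [← he3, hW]
        refine Submodule.sum_mem _ fun j hj => ?_
        have h5 := he1 j
        rw [h0, Submodule.mem_span_singleton] at h5
        obtain ⟨b, hb⟩ := h5
        rw [← hb]
        change (b • (1 : A)) * x i j ∈ _
        rw [smul_mul_assoc, one_mul]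
        refine Submodule.smul_mem _ _ (Submodule.subset_span ⟨j, ?_, rfl⟩)
        by_contra h
        exact (Finsupp.mem_support_iff.1 hj) (he2 j h)
      have h5 : x i j0 ∈ W := by
        have := W.smul_mem c⁻¹ h4
        rwa [smul_smul, inv_mul_cancel₀ hc0, one_smul] at this
      exact (hli i).notMem_span_image (s := Set.Iio j0) (lt_irrefl j0) h5
  -- conclusion
  rw [← DirectSum.sum_support_decompose 𝒜 (f p)]
  refine Submodule.sum_mem _ fun n _ => ?_
  rcases Nat.eq_zero_or_pos n with hn | hn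
  · subst hn
    rw [s3]
    exact zero_mem _
  · refine Ideal.span_mono ?_ (hUK W hW1 (x i j0) (hx i j0) n hn _ (SetLike.coe_mem _) (s2 n))
    rintro v ⟨hv, hv'⟩
    exact s5 v hv hv'

/-- one step of the resolution -/
theorem step [GradedAlgebra 𝒜] (h0 : 𝒜 0 = Submodule.span k {1}) (hUK : UK 𝒜)
    {ι : Type u} [LinearOrder ι] [WellFoundedLT ι] {M : Submodule A (ι →₀ A)} (hM : Good 𝒜 M) :
    ∃ (κ : Type u) (_ : LinearOrder κ) (_ : WellFoundedLT κ) (d : (κ →₀ A) →ₗ[A] (ι →₀ A)),
      (∀ i j, d (single i 1) j ∈ 𝒜 1) ∧ LinearMap.range d = M ∧ Good 𝒜 (LinearMap.ker d) := by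
  classical
  have h := fun i => exists_basis (𝒜 := 𝒜) M i
  choose K lo wf x g hx hgM hgi hg0 hg1 hspan hli using h
  have hwf : WellFoundedLT (_root_.Lex (Sigma K)) := by
    constructor
    refine Subrelation.wf (r := InvImage (PSigma.Lex (· < ·) (fun i => ((· < ·) : K i → K i → Prop)))
      (fun q : Sigma K => (⟨q.1, q.2⟩ : Σ' i, K i))) ?_ (InvImage.wf _
        (PSigma.lex ⟨(· < ·), IsWellFounded.wf⟩ (fun i => ⟨(· < ·), IsWellFounded.wf⟩)).wf)
    rintro ⟨i, l⟩ ⟨i', l'⟩ hq
    rcases Sigma.Lex.lt_def.1 hq with h | ⟨h, h'⟩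
    · exact PSigma.Lex.left _ _ h
    · obtain rfl : i = i' := h
      exact PSigma.Lex.right _ h'
  refine ⟨_root_.Lex (Sigma K), inferInstance, hwf,
    linearCombination A (fun p : _root_.Lex (Sigma K) => g p.1 p.2), ?_, ?_, ?_⟩
  · intro p j
    rw [linearCombination_single, one_smul]
    exact hg1 _ _ _
  · exact lift_top hM hgM hgi hg0 hg1 hspan
  · exact good_ker h0 hUK hM hx hgM hgi hg0 hg1 hspan hli

/-- a stage of the resolution -/
structure Stage (𝒜 : ℕ → Submodule k A) where
  ι : Type u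
  lo : LinearOrder ι
  wf : WellFoundedLT ι
  M : Submodule A (ι →₀ A)
  good : Good 𝒜 M

theorem exists_next [GradedAlgebra 𝒜] (h0 : 𝒜 0 = Submodule.span k {1}) (hUK : UK 𝒜)
    (S : Stage 𝒜) : ∃ (T : Stage 𝒜) (d : (T.ι →₀ A) →ₗ[A] (S.ι →₀ A)),
      (∀ i j, d (single i 1) j ∈ 𝒜 1) ∧ LinearMap.range d = S.M ∧ LinearMap.ker d = T.M := by
  obtain ⟨ι, lo, wf, M, good⟩ := S
  obtain ⟨κ, lo', wf', d, h1, h2, h3⟩ := step h0 hUK good
  exact ⟨⟨κ, lo', wf', LinearMap.ker d, h3⟩, d, h1, h2, rfl⟩

/-- a universally Koszul algebra is Koszul -/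
theorem koszul_of_UK [GradedAlgebra 𝒜] (h0 : 𝒜 0 = Submodule.span k {1}) (h1 : (1 : A) ≠ 0)
    (hgen : ∀ n, ∀ a ∈ 𝒜 (n + 1), a ∈ Ideal.span (𝒜 1 : Set A)) (hUK : UK 𝒜) : IsKoszul 𝒜 := by
  classical
  refine ⟨⟨h1, h0, fun m n x hx y hy => SetLike.GradedMul.mul_mem hx hy,
    DirectSum.Decomposition.isInternal 𝒜⟩, ?_⟩
  have haug : ∀ a : A, a ∈ Ideal.span (𝒜 1 : Set A) ↔ a ∈ ⨆ n, 𝒜 (n + 1) := by
    intro a
    constructor
    · intro ha
      obtain ⟨c, hc, rfl⟩ := Submodule.mem_span_set.1 ha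
      refine Submodule.sum_mem _ fun m hm => ?_
      have hm1 : m ∈ 𝒜 1 := hc hm
      change c m * m ∈ _
      rw [← DirectSum.sum_support_decompose 𝒜 (c m), Finset.sum_mul]
      refine Submodule.sum_mem _ fun n _ => ?_
      exact (le_iSup (fun n => 𝒜 (n + 1)) n) (SetLike.GradedMul.mul_mem (SetLike.coe_mem _) hm1)
    · intro ha
      have h2 : (⨆ n, 𝒜 (n + 1)) ≤ (Ideal.span (𝒜 1 : Set A) : Submodule A A).restrictScalars k :=
        iSup_le fun n a ha => hgen n a ha
      exact h2 ha
  let M0 : Submodule A (PUnit.{u + 1} →₀ A) :=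
    { carrier := {f | f PUnit.unit ∈ Ideal.span (𝒜 1 : Set A)}
      zero_mem' := (Ideal.span (𝒜 1 : Set A)).zero_mem
      add_mem' := fun {f g} hf hg => (Ideal.span (𝒜 1 : Set A)).add_mem hf hg
      smul_mem' := fun c f hf => by
        change (c • f) PUnit.unit ∈ Ideal.span (𝒜 1 : Set A)
        rw [Finsupp.smul_apply]
        exact Ideal.mul_mem_left _ c hf }
  have good0 : Good 𝒜 M0 := by
    intro i f hf _
    refine Ideal.span_mono ?_ (show f i ∈ Ideal.span (𝒜 1 : Set A) from hf)
    intro v hv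
    refine ⟨hv, single PUnit.unit v, ?_, by rw [single_eq_same], fun j hj => absurd hj (by simp), ?_⟩
    · change (single PUnit.unit v : PUnit.{u + 1} →₀ A) PUnit.unit ∈ Ideal.span (𝒜 1 : Set A)
      rw [single_eq_same]
      exact Ideal.subset_span hv
    · intro j
      rw [single_eq_same]
      exact hv
  let S0 : Stage 𝒜 := ⟨PUnit.{u + 1}, inferInstance, inferInstance, M0, good0⟩
  choose nxt dd hd1 hd2 hd3 using fun S : Stage 𝒜 => exists_next h0 hUK S
  let f : ℕ → Stage 𝒜 := fun n => Nat.rec S0 (fun _ S => nxt S) n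
  refine ⟨fun n => (f n).ι, fun n => dd (f n), PUnit.unit, fun _ => rfl, fun n i j => hd1 _ i j,
    ?_, ?_⟩
  · intro g
    rw [← haug]
    have : LinearMap.range (dd (f 0)) = M0 := hd2 S0
    rw [this]
    rfl
  · intro n
    rw [hd3 (f n)]
    exact (hd2 (f (n + 1))).symm

end Pool.Agent.KMil
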