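import Pool.Agent.KMil.Koszul

/-!
The Milnor ring of a field modulo a prime, with its grading.
-/

set_option autoImplicit false

namespace Pool.Agent.KMil

universe u

open Finsupp

/-- the defining relations of the Milnor ring modulo `p`: the symbols are additive, and
`{a} {b} = 0` if `a + b = 1` -/
inductive MRel (p : ℕ) (F : Type u) [Field F] :
    FreeAlgebra (ZMod p) Fˣ → FreeAlgebra (ZMod p) Fˣ → Prop
  | mul (a b : Fˣ) : MRel p F (FreeAlgebra.ι (ZMod p) (a * b))
      (FreeAlgebra.ι (ZMod p) a + FreeAlgebra.ι (ZMod p) b)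
  | steinberg (a b : Fˣ) (h : (a : F) + (b : F) = 1) :
      MRel p F (FreeAlgebra.ι (ZMod p) a * FreeAlgebra.ι (ZMod p) b) 0

/-- the Milnor ring `K^M_*(F) / p` -/
def KM (p : ℕ) (F : Type u) [Field F] : Type u := RingQuot (MRel p F)

noncomputable instance ringKM (p : ℕ) (F : Type u) [Field F] : Ring (KM p F) :=
  RingQuot.instRing (MRel p F)

noncomputable instance algebraKM (p : ℕ) (F : Type u) [Field F] : Algebra (ZMod p) (KM p F) :=
  RingQuot.instAlgebra (MRel p F)

/-- the quotient map -/
noncomputable def quo (p : ℕ) (F : Type u) [Field F] :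
    FreeAlgebra (ZMod p) Fˣ →ₐ[ZMod p] KM p F := RingQuot.mkAlgHom (ZMod p) (MRel p F)

/-- algebra maps out of the Milnor ring -/
noncomputable def liftKM {p : ℕ} {F : Type u} [Field F] {B : Type*} [Semiring B] [Algebra (ZMod p) B]
    (f : FreeAlgebra (ZMod p) Fˣ →ₐ[ZMod p] B) (h : ∀ x y, MRel p F x y → f x = f y) :
    KM p F →ₐ[ZMod p] B := RingQuot.liftAlgHom (ZMod p) ⟨f, fun {x y} => h x y⟩

theorem liftKM_quo {p : ℕ} {F : Type u} [Field F] {B : Type*} [Semiring B] [Algebra (ZMod p) B]
    (f : FreeAlgebra (ZMod p) Fˣ →ₐ[ZMod p] B) (h : ∀ x y, MRel p F x y → f x = f y)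
    (x : FreeAlgebra (ZMod p) Fˣ) : liftKM f h (quo p F x) = f x :=
  RingQuot.liftAlgHom_mkAlgHom_apply (ZMod p) f h x

theorem KM_ext {p : ℕ} {F : Type u} [Field F] {B : Type*} [Semiring B] [Algebra (ZMod p) B]
    {f g : KM p F →ₐ[ZMod p] B} (h : ∀ a : Fˣ, f (quo p F (FreeAlgebra.ι (ZMod p) a)) =
      g (quo p F (FreeAlgebra.ι (ZMod p) a))) : f = g := by
  refine RingQuot.ringQuot_ext' (ZMod p) (s := MRel p F) f g ?_
  apply FreeAlgebra.hom_ext
  funext a
  exact h a

variable (p : ℕ) {F : Type u} [Field F]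

/-- the symbol `{a}` -/
noncomputable def sym (a : Fˣ) : KM p F := quo p F (FreeAlgebra.ι (ZMod p) a)

/-- the degree `n` part `K^M_n(F) / p`: spanned by the products of `n` symbols -/
noncomputable def KMn (F : Type u) [Field F] (n : ℕ) : Submodule (ZMod p) (KM p F) :=
  Submodule.span (ZMod p) {x | ∃ l : List Fˣ, l.length = n ∧ x = (l.map (sym p)).prod}

theorem sym_mul (a b : Fˣ) : sym p (a * b) = sym p a + sym p b := by
  unfold sym
  rw [← map_add]
  exact RingQuot.mkAlgHom_rel _ (MRel.mul a b)

theorem sym_steinberg (a b : Fˣ) (h : (a : F) + (b : F) = 1) : sym p a * sym p b = 0 := by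
  unfold sym
  rw [← map_mul, ← map_zero (quo p F)]
  exact RingQuot.mkAlgHom_rel _ (MRel.steinberg a b h)

theorem sym_mem (a : Fˣ) : sym p a ∈ KMn p F 1 :=
  Submodule.subset_span ⟨[a], rfl, by simp⟩

theorem one_mem_zero : (1 : KM p F) ∈ KMn p F 0 :=
  Submodule.subset_span ⟨[], rfl, by simp⟩

instance : SetLike.GradedMonoid (KMn p F) where
  one_mem := one_mem_zero p
  mul_mem := by
    intro i j x y hx hy
    induction hx using Submodule.span_induction with
    | mem x hx =>
      obtain ⟨l, hl, rfl⟩ := hx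
      induction hy using Submodule.span_induction with
      | mem y hy =>
        obtain ⟨l', hl', rfl⟩ := hy
        exact Submodule.subset_span ⟨l ++ l', by simp [hl, hl'], by simp⟩
      | zero => rw [mul_zero]; exact zero_mem _
      | add y z _ _ h1 h2 => rw [mul_add]; exact add_mem h1 h2
      | smul c y _ h1 => rw [mul_smul_comm]; exact Submodule.smul_mem _ _ h1
    | zero => rw [zero_mul]; exact zero_mem _
    | add x z _ _ h1 h2 => rw [add_mul]; exact add_mem h1 h2
    | smul c x _ h1 => rw [smul_mul_assoc]; exact Submodule.smul_mem _ _ h1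

/-- the map to the direct sum -/
noncomputable def toDS (F : Type u) [Field F] : KM p F →ₐ[ZMod p] DirectSum ℕ (fun n => KMn p F n) :=
  liftKM (FreeAlgebra.lift (ZMod p)
    (fun a : Fˣ => DirectSum.of (fun n => KMn p F n) 1 ⟨sym p a, sym_mem p a⟩)) (by
    intro x y h
    cases h with
    | mul a b =>
      rw [map_add, FreeAlgebra.lift_ι_apply, FreeAlgebra.lift_ι_apply, FreeAlgebra.lift_ι_apply,
        ← map_add]
      congr 1
      exact Subtype.ext (sym_mul p a b)
    | steinberg a b h =>
      rw [map_mul, FreeAlgebra.lift_ι_apply, FreeAlgebra.lift_ι_apply, map_zero,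
        DirectSum.of_mul_of]
      have h1 : (GradedMonoid.GMul.mul (A := fun n => KMn p F n)
          (⟨sym p a, sym_mem p a⟩ : KMn p F 1)
          (⟨sym p b, sym_mem p b⟩ : KMn p F 1) : KMn p F (1 + 1)) = 0 :=
        Subtype.ext (sym_steinberg p a b h)
      rw [h1, map_zero])

theorem toDS_sym (a : Fˣ) : toDS p F (sym p a) =
    DirectSum.of (fun n => KMn p F n) 1 ⟨sym p a, sym_mem p a⟩ := by
  exact (liftKM_quo _ _ _).trans (FreeAlgebra.lift_ι_apply _ _)

theorem toDS_list (l : List Fˣ) : ∀ h : (l.map (sym p)).prod ∈ KMn p F l.length,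
    toDS p F (l.map (sym p)).prod =
    DirectSum.of (fun n => KMn p F n) l.length ⟨(l.map (sym p)).prod, h⟩ := by
  induction l with
  | nil =>
    intro h
    simp only [List.map_nil, List.prod_nil, map_one]
    rfl
  | cons a l ih =>
    intro h
    have h' : (l.map (sym p)).prod ∈ KMn p F l.length := Submodule.subset_span ⟨l, rfl, rfl⟩
    rw [show toDS p F ((a :: l).map (sym p)).prod = toDS p F (sym p a * (l.map (sym p)).prod) by
      rw [List.map_cons, List.prod_cons], map_mul, ih h', toDS_sym, DirectSum.of_mul_of]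
    have e : 1 + l.length = (a :: l).length := by rw [List.length_cons, add_comm]
    apply DirectSum.of_eq_of_gradedMonoid_eq
    refine Sigma.subtype_ext e ?_
    rfl

noncomputable instance gradedKM : GradedAlgebra (KMn p F) :=
  GradedAlgebra.ofAlgHom (KMn p F) (toDS p F)
    (by
      apply KM_ext
      intro a
      change (DirectSum.coeAlgHom (KMn p F)) (toDS p F (sym p a)) = sym p a
      rw [toDS_sym, DirectSum.coeAlgHom_of])
    (by
      intro i x
      obtain ⟨x, hx⟩ := x
      change toDS p F x = _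
      induction hx using Submodule.span_induction with
      | mem x hx =>
        obtain ⟨l, rfl, rfl⟩ := hx
        exact toDS_list p l _
      | zero =>
        rw [map_zero]
        exact (map_zero (DirectSum.of (fun n => KMn p F n) i)).symm
      | add x z _ _ h1 h2 => 
        rw [map_add, h1, h2, ← map_add]
        rfl
      | smul c x hx h1 =>
        rw [map_smul, h1]
        exact ((DirectSum.lof (ZMod p) ℕ (fun n => KMn p F n) i).map_smul c ⟨x, hx⟩).symm)

theorem KM_zero : KMn p F 0 = Submodule.span (ZMod p) {1} := by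
  unfold KMn
  congr 1
  ext x
  constructor
  · rintro ⟨l, hl, rfl⟩
    rw [List.length_eq_zero_iff] at hl
    subst hl
    simp
  · rintro rfl
    exact ⟨[], rfl, by simp⟩

/-- the augmentation -/
noncomputable def aug (F : Type u) [Field F] : KM p F →ₐ[ZMod p] ZMod p :=
  liftKM (FreeAlgebra.lift (ZMod p) (fun _ : Fˣ => 0)) (by
    intro x y h
    cases h with
    | mul a b => simp
    | steinberg a b h => simp)

theorem one_ne [Fact p.Prime] : (1 : KM p F) ≠ 0 := by
  intro h
  have := congrArg (aug p F) h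
  rw [map_one, map_zero] at this
  exact one_ne_zero this

theorem KM_gen (n : ℕ) (a : KM p F) (ha : a ∈ KMn p F (n + 1)) :
    a ∈ Ideal.span (KMn p F 1 : Set (KM p F)) := by
  induction ha using Submodule.span_induction with
  | mem x hx =>
    obtain ⟨l, hl, rfl⟩ := hx
    obtain ⟨l', b, rfl⟩ := (List.eq_nil_or_concat' l).resolve_left (by rintro rfl; simp at hl)
    rw [List.map_append, List.prod_append]
    refine Ideal.mul_mem_left _ _ (Ideal.subset_span ?_)
    simpa using sym_mem p b
  | zero => exact zero_mem _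
  | add x y _ _ h1 h2 => exact add_mem h1 h2
  | smul c x _ h1 =>
    rw [Algebra.smul_def]
    exact Ideal.mul_mem_left _ _ h1

end Pool.Agent.KMil
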