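import Pool.Agent.KMil.GenP

/-!
The case `p = 3`: isotropy of a cubic form in twelve variables.
-/

set_option autoImplicit false

namespace Pool.Agent.KMil

universe u

variable {F : Type u} [Field F]

/-- the norm form of `F[X] / (X ^ 3 - a)` -/
def nm3 (a x y z : F) : F := x ^ 3 + a * y ^ 3 + a ^ 2 * z ^ 3 - 3 * a * x * y * z

/-- the cubic form in twelve variables attached to `a`, `b`, `c` -/
def cub12 (a b c : F) (x : Fin 12 → F) : F :=
  (nm3 a (x 0) (x 1) (x 2) - b * nm3 a (x 3) (x 4) (x 5)) -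
    c * (nm3 a (x 6) (x 7) (x 8) - b * nm3 a (x 9) (x 10) (x 11))

theorem nm3_identity (a x y z : F) : nm3 a x y z * (y ^ 3 - a * z ^ 3) =
    (x * y - a * z ^ 2) ^ 3 - a * (-(y ^ 2 - x * z)) ^ 3 := by
  unfold nm3
  ring

theorem bin_eq_zero {a y z : F} (ha : ¬ ∃ d : F, d ^ 3 = a) (h : y ^ 3 - a * z ^ 3 = 0) :
    y = 0 ∧ z = 0 := by
  by_cases hz : z = 0
  · subst hz
    refine ⟨?_, rfl⟩
    have : y ^ 3 = 0 := by linear_combination h
    exact pow_eq_zero_iff (three_ne_zero) |>.1 this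
  · exfalso
    apply ha
    refine ⟨y / z, ?_⟩
    field_simp
    linear_combination h

theorem nm3_eq_zero {a x y z : F} (ha : ¬ ∃ d : F, d ^ 3 = a) (h : nm3 a x y z = 0) :
    x = 0 ∧ y = 0 ∧ z = 0 := by
  have h1 := nm3_identity a x y z
  rw [h, zero_mul] at h1
  obtain ⟨h2, h3⟩ := bin_eq_zero ha h1.symm
  have h4 : y ^ 3 - a * z ^ 3 = 0 := by
    linear_combination -y * h3 + z * h2
  obtain ⟨hy, hz⟩ := bin_eq_zero ha h4
  subst hy hz
  refine ⟨?_, rfl, rfl⟩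
  unfold nm3 at h
  have : x ^ 3 = 0 := by linear_combination h
  exact pow_eq_zero_iff (three_ne_zero) |>.1 this

theorem nm3_mem (a n : Fˣ) (ha : ¬ ∃ d : F, d ^ 3 = a) (x y z : F)
    (h : (n : F) = nm3 (a : F) x y z) : n ∈ BG 3 a := by
  by_cases hq : y ^ 3 - a * z ^ 3 = 0
  · obtain ⟨hy, hz⟩ := bin_eq_zero ha hq
    subst hy hz
    refine Subgroup.subset_closure ⟨x, 0, ?_⟩
    rw [h]
    unfold nm3
    ring
  · have e : n = (n * Units.mk0 _ hq) * (Units.mk0 _ hq)⁻¹ := by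
      rw [mul_assoc, mul_inv_cancel, mul_one]
    rw [e]
    refine Subgroup.mul_mem _ (Subgroup.subset_closure
      ⟨x * y - a * z ^ 2, -(y ^ 2 - x * z), ?_⟩)
      (Subgroup.inv_mem _ (Subgroup.subset_closure ⟨y, z, Units.val_mk0 _⟩))
    rw [Units.val_mul, Units.val_mk0, h]
    exact nm3_identity (a : F) x y z

theorem nm3_or (a : Fˣ) (ha : ¬ ∃ d : F, d ^ 3 = a) (x y z : F) :
    nm3 (a : F) x y z = 0 ∨ ∃ n ∈ BG 3 a, (n : F) = nm3 (a : F) x y z := by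
  by_cases h : nm3 (a : F) x y z = 0
  · exact Or.inl h
  · exact Or.inr ⟨Units.mk0 _ h, nm3_mem a _ ha x y z (Units.val_mk0 _), Units.val_mk0 _⟩

theorem split_mem (a b : Fˣ) (ha : ¬ ∃ d : F, d ^ 3 = a) (x1 y1 z1 x2 y2 z2 : F)
    (hne : ¬ (x1 = 0 ∧ y1 = 0 ∧ z1 = 0 ∧ x2 = 0 ∧ y2 = 0 ∧ z2 = 0))
    (h0 : nm3 (a : F) x1 y1 z1 - b * nm3 (a : F) x2 y2 z2 = 0) : b ∈ BG 3 a := by
  have h2 : nm3 (a : F) x2 y2 z2 ≠ 0 := by
    intro h2
    rw [h2, mul_zero, sub_zero] at h0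
    obtain ⟨e1, e2, e3⟩ := nm3_eq_zero ha h0
    obtain ⟨e4, e5, e6⟩ := nm3_eq_zero ha h2
    exact hne ⟨e1, e2, e3, e4, e5, e6⟩
  have h1 : nm3 (a : F) x1 y1 z1 ≠ 0 := by
    intro h1
    rw [h1, zero_sub, neg_eq_zero, mul_eq_zero] at h0
    exact h0.elim b.ne_zero h2
  have e : b = Units.mk0 _ h1 * (Units.mk0 _ h2)⁻¹ := by
    apply Units.ext
    rw [Units.val_mul, Units.val_inv_eq_inv_val, Units.val_mk0, Units.val_mk0]
    field_simp
    linear_combination -h0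
  rw [e]
  exact Subgroup.mul_mem _ (nm3_mem a _ ha _ _ _ (Units.val_mk0 _))
    (Subgroup.inv_mem _ (nm3_mem a _ ha _ _ _ (Units.val_mk0 _)))

theorem binaryNorms_three
    (H : ∀ a b c : Fˣ, ∃ x : Fin 12 → F, x ≠ 0 ∧ cub12 (a : F) b c x = 0) :
    BinaryNorms 3 F := by
  intro a b
  by_cases ha : ∃ d : F, d ^ 3 = a
  · exact Or.inl ha
  by_cases hb : b ∈ BG 3 a
  · exact Or.inr (Or.inl hb)
  refine Or.inr (Or.inr ?_)
  rw [eq_top_iff]
  intro c _
  obtain ⟨x, hx, h⟩ := H a b c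
  unfold cub12 at h
  have hD : nm3 (a : F) (x 6) (x 7) (x 8) - b * nm3 (a : F) (x 9) (x 10) (x 11) ≠ 0 := by
    intro hD
    have hM : nm3 (a : F) (x 0) (x 1) (x 2) - b * nm3 (a : F) (x 3) (x 4) (x 5) = 0 := by
      rw [hD] at h
      linear_combination h
    by_cases h1 : x 6 = 0 ∧ x 7 = 0 ∧ x 8 = 0 ∧ x 9 = 0 ∧ x 10 = 0 ∧ x 11 = 0
    · by_cases h2 : x 0 = 0 ∧ x 1 = 0 ∧ x 2 = 0 ∧ x 3 = 0 ∧ x 4 = 0 ∧ x 5 = 0
      · apply hx
        obtain ⟨a0, a1, a2, a3, a4, a5⟩ := h2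
        obtain ⟨a6, a7, a8, a9, a10, a11⟩ := h1
        funext i
        fin_cases i
        · exact a0
        · exact a1
        · exact a2
        · exact a3
        · exact a4
        · exact a5
        · exact a6
        · exact a7
        · exact a8
        · exact a9
        · exact a10
        · exact a11
      · exact hb (split_mem a b ha _ _ _ _ _ _ h2 hM)
    · exact hb (split_mem a b ha _ _ _ _ _ _ h1 hD)
  have hM : nm3 (a : F) (x 0) (x 1) (x 2) - b * nm3 (a : F) (x 3) (x 4) (x 5) ≠ 0 := by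
    intro hM
    rw [hM, zero_sub, neg_eq_zero, mul_eq_zero] at h
    exact h.elim c.ne_zero hD
  have e : c = Units.mk0 _ hM * (Units.mk0 _ hD)⁻¹ := by
    apply Units.ext
    rw [Units.val_mul, Units.val_inv_eq_inv_val, Units.val_mk0, Units.val_mk0]
    field_simp
    linear_combination -h
  rw [e]
  refine Subgroup.mul_mem _ (Subgroup.subset_closure ?_)
    (Subgroup.inv_mem _ (Subgroup.subset_closure ?_))
  · exact ⟨_, _, nm3_or a ha _ _ _, nm3_or a ha _ _ _, Units.val_mk0 _⟩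
  · exact ⟨_, _, nm3_or a ha _ _ _, nm3_or a ha _ _ _, Units.val_mk0 _⟩

theorem koszul_three
    (H : ∀ a b c : Fˣ, ∃ x : Fin 12 → F, x ≠ 0 ∧ cub12 (a : F) b c x = 0) :
    IsKoszul (KMn 3 F) := by
  have : Fact (Nat.Prime 3) := ⟨Nat.prime_three⟩
  exact koszul_p (binaryNorms_three H)

end Pool.Agent.KMil
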