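import Pool.Agent.KMil.Milnor

/-!
The Milnor ring modulo 2 of a field over which all three-fold Pfister forms are isotropic.
-/

set_option autoImplicit false

namespace Pool.Agent.KMil

universe u

open Finsupp

section general

variable (p : ℕ) {F : Type u} [Field F]

theorem sym_one : sym p (1 : Fˣ) = 0 := by
  have h := sym_mul p (1 : Fˣ) 1
  rw [mul_one] at h
  exact left_eq_add.1 h

theorem sym_inv (a : Fˣ) : sym p a⁻¹ = -sym p a := by
  have h := sym_mul p a⁻¹ a
  rw [inv_mul_cancel, sym_one] at h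
  exact eq_neg_of_add_eq_zero_left h.symm

theorem sym_neg_self (a : Fˣ) : sym p a * sym p (-a) = 0 := by
  by_cases h1 : (a : F) = 1
  · have : a = 1 := Units.ext h1
    rw [this, sym_one, zero_mul]
  · have ha : (a : F) ≠ 0 := a.ne_zero
    have h2 : (1 : F) - a ≠ 0 := sub_ne_zero.2 (Ne.symm h1)
    have h3 : (1 : F) - (a : F)⁻¹ ≠ 0 := by
      intro h
      apply h1
      rw [sub_eq_zero] at h
      exact inv_eq_one.1 h.symm
    have e : -a = Units.mk0 _ h2 * (Units.mk0 _ h3)⁻¹ := by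
      apply Units.ext
      rw [Units.val_neg, Units.val_mul, Units.val_inv_eq_inv_val, Units.val_mk0, Units.val_mk0]
      field_simp
      ring
    have k1 : sym p a * sym p (Units.mk0 _ h2) = 0 := by
      apply sym_steinberg
      rw [Units.val_mk0]
      ring
    have k2 : sym p a⁻¹ * sym p (Units.mk0 _ h3) = 0 := by
      apply sym_steinberg
      rw [Units.val_mk0, Units.val_inv_eq_inv_val]
      ring
    rw [sym_inv, neg_mul, neg_eq_zero] at k2
    rw [e, sym_mul, sym_inv, mul_add, mul_neg, k1, k2, neg_zero, add_zero]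

theorem sym_anticomm (a b : Fˣ) : sym p a * sym p b + sym p b * sym p a = 0 := by
  have h := sym_neg_self p (a * b)
  have h1 : sym p (-(a * b)) = sym p (-a) + sym p b := by
    rw [← sym_mul, neg_mul]
  have h2 : sym p (-(a * b)) = sym p a + sym p (-b) := by
    rw [← sym_mul, mul_neg]
  have h3 : sym p a * sym p (-(a * b)) = sym p a * sym p b := by
    rw [h1, mul_add, sym_neg_self, zero_add]
  have h4 : sym p b * sym p (-(a * b)) = sym p b * sym p a := by
    rw [h2, mul_add, sym_neg_self, add_zero]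
  rw [sym_mul, add_mul, h3, h4] at h
  exact h

end general

variable {F : Type u} [Field F]

theorem two_zero (x : KM 2 F) : x + x = 0 := by
  rw [← two_smul (ZMod 2) x, show (2 : ZMod 2) = 0 from rfl, zero_smul]

theorem sym_sq (a : Fˣ) : sym 2 (a * a) = 0 := by
  rw [sym_mul, two_zero]

theorem neg_eq (x : KM 2 F) : -x = x := by
  rw [neg_eq_iff_add_eq_zero]
  exact two_zero x

theorem sym_comm (a b : Fˣ) : sym 2 a * sym 2 b = sym 2 b * sym 2 a := by
  have h := sym_anticomm 2 a b
  rw [← neg_eq (sym 2 b * sym 2 a)]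
  exact eq_neg_of_add_eq_zero_left h

/-- values of the norm form annihilate the symbol -/
theorem norm_sym (a n : Fˣ) (x y : F) (h : (n : F) = x ^ 2 - a * y ^ 2) :
    sym 2 n * sym 2 a = 0 := by
  rw [sym_comm]
  by_cases hx : x = 0
  · have hy : y ≠ 0 := by
      rintro rfl
      apply n.ne_zero
      rw [h, hx]
      ring
    have e : n = -a * (Units.mk0 y hy * Units.mk0 y hy) := by
      apply Units.ext
      rw [h, hx]
      simp
      ring
    rw [e, sym_mul, sym_sq, add_zero, sym_neg_self]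
  · by_cases hy : y = 0
    · have e : n = Units.mk0 x hx * Units.mk0 x hx := by
        apply Units.ext
        rw [h, hy]
        simp
        ring
      rw [e, sym_sq, mul_zero]
    · set u := Units.mk0 x hx with hu
      set v := Units.mk0 y hy with hv
      have k := sym_steinberg 2 (a * (v * v) * (u⁻¹ * u⁻¹)) (n * (u⁻¹ * u⁻¹)) (by
        simp only [Units.val_mul, Units.val_inv_eq_inv_val, hu, hv, Units.val_mk0]
        rw [h]
        field_simp
        ring)
      simp only [sym_mul, two_zero, add_zero] at k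
      exact k

/-- the ideal generated by the linear annihilator of `{a}` -/
noncomputable def J (a : Fˣ) : Ideal (KM 2 F) :=
  Ideal.span {v | v ∈ KMn 2 F 1 ∧ v * sym 2 a = 0}

theorem mem_J_norm (a n : Fˣ) (x y : F) (h : (n : F) = x ^ 2 - a * y ^ 2) : sym 2 n ∈ J a :=
  Ideal.subset_span ⟨sym_mem 2 n, norm_sym a n x y h⟩

theorem J_mul (a : Fˣ) {z : KM 2 F} (hz : z ∈ J a) : z * sym 2 a = 0 := by
  unfold J at hz
  induction hz using Submodule.span_induction with
  | mem x hx => exact hx.2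
  | zero => rw [zero_mul]
  | add x y _ _ h1 h2 => rw [add_mul, h1, h2, add_zero]
  | smul c x _ h1 => rw [smul_eq_mul, mul_assoc, h1, mul_zero]

theorem mem_J_rep (a b m : Fˣ) (x1 y1 x2 y2 : F)
    (h : (m : F) = (x1 ^ 2 - a * y1 ^ 2) - b * (x2 ^ 2 - a * y2 ^ 2)) :
    sym 2 b * sym 2 m ∈ J a := by
  by_cases h2 : x2 ^ 2 - a * y2 ^ 2 = 0
  · rw [h2, mul_zero, sub_zero] at h
    exact Ideal.mul_mem_left _ _ (mem_J_norm a m x1 y1 h)
  · by_cases h1 : x1 ^ 2 - a * y1 ^ 2 = 0
    · have e : m = -b * Units.mk0 _ h2 := by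
        apply Units.ext
        rw [h, h1]
        simp
      rw [e, sym_mul, mul_add, sym_neg_self, zero_add]
      exact Ideal.mul_mem_left _ _ (mem_J_norm a _ x2 y2 (Units.val_mk0 _))
    · set n1 := Units.mk0 _ h1 with hn1
      set n2 := Units.mk0 _ h2 with hn2
      have k := sym_steinberg 2 (b * n2 * n1⁻¹) (m * n1⁻¹) (by
        simp only [Units.val_mul, Units.val_inv_eq_inv_val, hn1, hn2, Units.val_mk0]
        rw [h]
        field_simp
        ring)
      have j1 := mem_J_norm a n1 x1 y1 (Units.val_mk0 _)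
      have j2 := mem_J_norm a n2 x2 y2 (Units.val_mk0 _)
      rw [sym_mul, sym_mul, sym_mul, sym_inv, neg_eq] at k
      have c1 := sym_comm n1 m
      have c2 := sym_comm n2 m
      have c3 := sym_comm n2 n1
      have e : sym 2 b * sym 2 m = sym 2 b * sym 2 n1 + (sym 2 m * sym 2 n2 + sym 2 n1 * sym 2 n2)
          + (sym 2 m * sym 2 n1 + sym 2 n1 * sym 2 n1) := by
        have k' : sym 2 b * sym 2 m + (sym 2 b * sym 2 n1 + (sym 2 m * sym 2 n2 +
            sym 2 n1 * sym 2 n2) + (sym 2 m * sym 2 n1 + sym 2 n1 * sym 2 n1)) = 0 := by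
          rw [← c1, ← c2, ← c3, ← k]
          noncomm_ring
        have k2 := eq_neg_of_add_eq_zero_left k'
        rwa [neg_eq] at k2
      rw [e]
      refine add_mem (add_mem ?_ (add_mem ?_ ?_)) (add_mem ?_ ?_)
      · exact Ideal.mul_mem_left _ _ j1
      · exact Ideal.mul_mem_left _ _ j2
      · exact Ideal.mul_mem_left _ _ j2
      · exact Ideal.mul_mem_left _ _ j1
      · exact Ideal.mul_mem_left _ _ j1

/-- the three-fold Pfister form `<<a, b, c>>` -/
def pf3 (a b c : F) (x : Fin 8 → F) : F :=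
  (x 0 ^ 2 - a * x 1 ^ 2) - b * (x 2 ^ 2 - a * x 3 ^ 2) -
    c * ((x 4 ^ 2 - a * x 5 ^ 2) - b * (x 6 ^ 2 - a * x 7 ^ 2))

theorem norm_eq_zero {a x y : F} (ha : ¬ IsSquare a) (h : x ^ 2 - a * y ^ 2 = 0) :
    x = 0 ∧ y = 0 := by
  by_cases hy : y = 0
  · subst hy
    refine ⟨?_, rfl⟩
    have : x ^ 2 = 0 := by linear_combination h
    exact pow_eq_zero_iff (two_ne_zero) |>.1 this
  · exfalso
    apply ha
    refine ⟨x / y, ?_⟩
    field_simp
    linear_combination -h

theorem mem_J_of_isotropic (a b c : Fˣ) (ha : ¬ IsSquare (a : F)) (x : Fin 8 → F) (hx : x ≠ 0)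
    (h : pf3 (a : F) b c x = 0) : sym 2 b * sym 2 c ∈ J a := by
  have key : ∀ x1 y1 x2 y2 : F, ¬ (x1 = 0 ∧ y1 = 0 ∧ x2 = 0 ∧ y2 = 0) →
      (x1 ^ 2 - a * y1 ^ 2) - b * (x2 ^ 2 - a * y2 ^ 2) = 0 → sym 2 b ∈ J a := by
    intro x1 y1 x2 y2 hne h0
    have h2 : x2 ^ 2 - a * y2 ^ 2 ≠ 0 := by
      intro h2
      rw [h2, mul_zero, sub_zero] at h0
      obtain ⟨e1, e2⟩ := norm_eq_zero ha h0
      obtain ⟨e3, e4⟩ := norm_eq_zero ha h2
      exact hne ⟨e1, e2, e3, e4⟩
    have h1 : x1 ^ 2 - a * y1 ^ 2 ≠ 0 := by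
      intro h1
      rw [h1, zero_sub, neg_eq_zero, mul_eq_zero] at h0
      exact h0.elim b.ne_zero h2
    have e : b = Units.mk0 _ h1 * (Units.mk0 _ h2)⁻¹ := by
      apply Units.ext
      rw [Units.val_mul, Units.val_inv_eq_inv_val, Units.val_mk0, Units.val_mk0]
      field_simp
      linear_combination -h0
    rw [e, sym_mul, sym_inv]
    exact add_mem (mem_J_norm a _ x1 y1 (Units.val_mk0 _))
      (neg_mem (mem_J_norm a _ x2 y2 (Units.val_mk0 _)))
  have hb : sym 2 b ∈ J a → sym 2 b * sym 2 c ∈ J a := by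
    intro h
    rw [sym_comm]
    exact Ideal.mul_mem_left _ _ h
  by_cases hD : (x 4 ^ 2 - a * x 5 ^ 2) - b * (x 6 ^ 2 - a * x 7 ^ 2) = 0
  · have hM : (x 0 ^ 2 - a * x 1 ^ 2) - b * (x 2 ^ 2 - a * x 3 ^ 2) = 0 := by
      unfold pf3 at h
      rw [hD] at h
      linear_combination h
    by_cases h1 : x 4 = 0 ∧ x 5 = 0 ∧ x 6 = 0 ∧ x 7 = 0
    · by_cases h2 : x 0 = 0 ∧ x 1 = 0 ∧ x 2 = 0 ∧ x 3 = 0
      · exfalso
        apply hx
        funext i
        fin_cases i
        · exact h2.1
        · exact h2.2.1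
        · exact h2.2.2.1
        · exact h2.2.2.2
        · exact h1.1
        · exact h1.2.1
        · exact h1.2.2.1
        · exact h1.2.2.2
      · exact hb (key _ _ _ _ h2 hM)
    · exact hb (key _ _ _ _ h1 hD)
  · have hM : (x 0 ^ 2 - a * x 1 ^ 2) - b * (x 2 ^ 2 - a * x 3 ^ 2) ≠ 0 := by
      intro hM
      unfold pf3 at h
      rw [hM, zero_sub, neg_eq_zero, mul_eq_zero] at h
      exact h.elim c.ne_zero hD
    have e : c = Units.mk0 _ hM * (Units.mk0 _ hD)⁻¹ := by
      apply Units.ext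
      rw [Units.val_mul, Units.val_inv_eq_inv_val, Units.val_mk0, Units.val_mk0]
      unfold pf3 at h
      field_simp
      linear_combination -h
    rw [e, sym_mul, sym_inv, mul_add, mul_neg]
    exact add_mem (mem_J_rep a b _ _ _ _ _ (Units.val_mk0 _))
      (neg_mem (mem_J_rep a b _ _ _ _ _ (Units.val_mk0 _)))

/-- every linear form is a symbol -/
theorem exists_sym (v : KM 2 F) (hv : v ∈ KMn 2 F 1) : ∃ a : Fˣ, v = sym 2 a := by
  induction hv using Submodule.span_induction with
  | mem x hx =>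
    obtain ⟨l, hl, rfl⟩ := hx
    obtain ⟨a, rfl⟩ := List.length_eq_one_iff.1 hl
    exact ⟨a, by simp⟩
  | zero => exact ⟨1, (sym_one 2).symm⟩
  | add x y _ _ h1 h2 =>
    obtain ⟨a, rfl⟩ := h1
    obtain ⟨b, rfl⟩ := h2
    exact ⟨a * b, (sym_mul 2 a b).symm⟩
  | smul c x _ h1 =>
    obtain ⟨a, rfl⟩ := h1
    fin_cases c
    · exact ⟨1, by rw [sym_one]; exact zero_smul _ _⟩
    · exact ⟨a, one_smul _ _⟩

theorem sym_of_isSquare (a : Fˣ) (h : IsSquare (a : F)) : sym 2 a = 0 := by
  obtain ⟨x, hx⟩ := h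
  have hx0 : x ≠ 0 := by
    rintro rfl
    apply a.ne_zero
    rw [hx, mul_zero]
  have e : a = Units.mk0 x hx0 * Units.mk0 x hx0 := Units.ext hx
  rw [e, sym_sq]

section main

variable (H : ∀ a b c : Fˣ, ∃ x : Fin 8 → F, x ≠ 0 ∧ pf3 (a : F) b c x = 0)

include H

theorem degree_two (a : Fˣ) (ha : ¬ IsSquare (a : F)) (z : KM 2 F) (hz : z ∈ KMn 2 F 2) :
    z ∈ J a := by
  induction hz using Submodule.span_induction with
  | mem x hx =>
    obtain ⟨l, hl, rfl⟩ := hx
    obtain ⟨b, c, rfl⟩ := List.length_eq_two.1 hl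
    obtain ⟨x, hx, h⟩ := H a b c
    simpa using mem_J_of_isotropic a b c ha x hx h
  | zero => exact zero_mem _
  | add x y _ _ h1 h2 => exact add_mem h1 h2
  | smul c x _ h1 =>
    rw [Algebra.smul_def]
    exact Ideal.mul_mem_left _ _ h1

theorem degree_three (n : ℕ) (z : KM 2 F) (hz : z ∈ KMn 2 F (n + 3)) : z = 0 := by
  induction hz using Submodule.span_induction with
  | mem x hx =>
    obtain ⟨l, hl, rfl⟩ := hx
    obtain ⟨l1, a, rfl⟩ := (List.eq_nil_or_concat' l).resolve_left (by rintro rfl; simp at hl)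
    rw [List.length_append, List.length_singleton] at hl
    obtain ⟨l2, c, rfl⟩ := (List.eq_nil_or_concat' l1).resolve_left (by rintro rfl; simp at hl)
    rw [List.length_append, List.length_singleton] at hl
    obtain ⟨l3, b, rfl⟩ := (List.eq_nil_or_concat' l2).resolve_left (by rintro rfl; simp at hl)
    have h0 : sym 2 b * sym 2 c * sym 2 a = 0 := by
      by_cases ha : IsSquare (a : F)
      · rw [sym_of_isSquare a ha, mul_zero]
      · obtain ⟨x, hx, h⟩ := H a b c
        exact J_mul a (mem_J_of_isotropic a b c ha x hx h)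
    simp only [List.map_append, List.map_cons, List.map_nil, List.prod_append, List.prod_cons,
      List.prod_nil, mul_one]
    rw [mul_assoc, mul_assoc, ← mul_assoc (sym 2 b), h0, mul_zero]
  | zero => rfl
  | add x y _ _ h1 h2 => rw [h1, h2, add_zero]
  | smul c x _ h1 => rw [h1, smul_zero]

theorem UK_two : UK (KMn 2 F) := by
  intro W _ x hx n hn z hz hzx
  obtain ⟨a, rfl⟩ := exists_sym x hx
  rcases Nat.lt_or_ge n 2 with h1 | h1
  · obtain rfl : n = 1 := by omega
    exact Ideal.subset_span ⟨hz, hzx⟩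
  · rcases Nat.lt_or_ge n 3 with h2 | h2
    · obtain rfl : n = 2 := by omega
      by_cases ha : IsSquare (a : F)
      · refine Ideal.span_mono ?_ (KM_gen 2 1 z hz)
        intro v hv
        refine ⟨hv, ?_⟩
        rw [sym_of_isSquare a ha, mul_zero]
        exact zero_mem _
      · refine Ideal.span_mono ?_ (degree_two H a ha z hz)
        rintro v ⟨hv, hv'⟩
        refine ⟨hv, ?_⟩
        rw [hv']
        exact zero_mem _
    · obtain ⟨m, rfl⟩ : ∃ m, n = m + 3 := ⟨n - 3, by omega⟩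
      rw [degree_three H m z hz]
      exact zero_mem _

theorem koszul_two : IsKoszul (KMn 2 F) :=
  koszul_of_UK (KM_zero 2) (one_ne 2) (KM_gen 2) (UK_two H)

end main

end Pool.Agent.KMil
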