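import Pool.Agent.KMil.VKos

/-!
Universal Koszulity of `K^M_*(F) / 2` for fields of virtual cohomological 2-dimension at most two.
-/

set_option autoImplicit false

namespace Pool.Agent.KMil

universe u v

variable {F : Type u} [Field F]

theorem dec4 : ∀ A z w : ZMod 2, z * A = 0 → w * (1 + A) = 0 → (z + w) * A = 0 → w = 0 := by
  decide

theorem dec5 : ∀ x w z1 z2 : ZMod 2, z1 * (x + w) = 0 → z2 * (1 + (x + w)) = 0 →
    (w = 0 → (z1 + z2) * x = 0) → z2 * x = 0 := by decide

section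

variable (h2 : (2 : F) ≠ 0) (H : HV F)

include h2 H

theorem decomp (a : Fˣ) (z : KM 2 F) (hz : z ∈ KMn 2 F 2) :
    ∃ z1 ∈ J2 a, ∃ z2 ∈ J2 (-a), z = z1 + z2 := by
  obtain ⟨L, rfl⟩ := exists_list z hz
  induction L with
  | nil => exact ⟨0, zero_mem _, 0, zero_mem _, by simp⟩
  | cons p L ih =>
    have hL : (L.map (fun p => sym 2 p.1 * sym 2 p.2)).sum ∈ KMn 2 F 2 := by
      clear ih hz
      induction L with
      | nil => exact zero_mem _
      | cons q L ih =>
        simp only [List.map_cons, List.sum_cons]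
        exact add_mem (Submodule.subset_span ⟨[q.1, q.2], rfl, by simp⟩) ih
    obtain ⟨z1, hz1, z2, hz2, h⟩ := ih hL
    obtain ⟨f1, g1, f2, g2, h0, h1, h3⟩ := split h2 H a p.1 p.2
    simp only [List.map_cons, List.sum_cons]
    have k1 : sym 2 f1 * sym 2 g1 ∈ J2 (-a) := by
      apply mem_J2_of_chi h2 H
      intro O
      rw [h1 O, chi_neg]
      generalize chi O (sym 2 a) = A
      generalize chi O (sym 2 p.1) * chi O (sym 2 p.2) = B
      revert A B
      decide
    have k2 : sym 2 f2 * sym 2 g2 ∈ J2 a := by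
      apply mem_J2_of_chi h2 H
      intro O
      rw [h3 O]
      generalize chi O (sym 2 a) = A
      generalize chi O (sym 2 p.1) * chi O (sym 2 p.2) = B
      revert A B
      decide
    refine ⟨sym 2 f2 * sym 2 g2 + z1, add_mem k2 hz1, sym 2 f1 * sym 2 g1 + z2,
      add_mem k1 hz2, ?_⟩
    rw [h, h0]
    abel

/-- elements of degree two supported where one of the `w` in `ws` is negative or `x` positive -/
theorem uk_two (x : Fˣ) (S : Submodule (ZMod 2) (KM 2 F)) (hx : J2 x ≤ S) (ws : List Fˣ)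
    (hw : ∀ w ∈ ws, J2 (x * w) ≤ S) : ∀ z ∈ KMn 2 F 2,
    (∀ O : Ordg F, (∀ w ∈ ws, chi O (sym 2 w) = 0) → chi O z * chi O (sym 2 x) = 0) → z ∈ S := by
  induction ws with
  | nil =>
    intro z hz h
    obtain ⟨z1, hz1, z2, hz2, rfl⟩ := decomp h2 H x z hz
    refine add_mem (hx hz1) (hx (J2_neg_one_le H x (sign_zero h2 H z2 (J2_le _ hz2) ?_)))
    intro O
    have k := h O (by simp)
    have k1 := chi_of_J2 O x hz1
    have k2 := chi_of_J2 O (-x) hz2
    rw [chi_neg] at k2
    rw [map_add] at k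
    exact dec4 _ _ _ k1 k2 k
  | cons w ws ih =>
    intro z hz h
    obtain ⟨z1, hz1, z2, hz2, rfl⟩ := decomp h2 H (x * w) z hz
    refine add_mem (hw w (by simp) hz1) (ih (fun w' hw' => hw w' (by simp [hw'])) z2
      (J2_le _ hz2) ?_)
    intro O hO
    have k1 := chi_of_J2 O (x * w) hz1
    have k2 := chi_of_J2 O (-(x * w)) hz2
    rw [chi_neg] at k2
    rw [chi_mul] at k1 k2
    refine dec5 _ _ _ _ k1 k2 ?_
    intro h0
    have k := h O (by
      intro w' hw'
      rcases List.mem_cons.1 hw' with rfl | h'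
      · exact h0
      · exact hO w' h')
    rwa [map_add] at k

theorem three_eq (a b c : Fˣ) : ∃ f g : Fˣ,
    sym 2 a * (sym 2 b * sym 2 c) = sym 2 (-1 : Fˣ) * (sym 2 f * sym 2 g) := by
  obtain ⟨f1, g1, f2, g2, h0, h1, h3⟩ := split h2 H a b c
  have k1 : sym 2 f1 * sym 2 g1 ∈ J2 (-a) := by
    apply mem_J2_of_chi h2 H
    intro O
    rw [h1 O, chi_neg]
    generalize chi O (sym 2 a) = A
    generalize chi O (sym 2 b) * chi O (sym 2 c) = B
    revert A B
    decide
  have k2 : sym 2 f2 * sym 2 g2 ∈ J2 a := by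
    apply mem_J2_of_chi h2 H
    intro O
    rw [h3 O]
    generalize chi O (sym 2 a) = A
    generalize chi O (sym 2 b) * chi O (sym 2 c) = B
    revert A B
    decide
  have cm : ∀ u f g : Fˣ, sym 2 u * (sym 2 f * sym 2 g) = sym 2 f * sym 2 g * sym 2 u := by
    intro u f g
    rw [← mul_assoc, sym_comm u f, mul_assoc, sym_comm u g, mul_assoc]
  refine ⟨f1, g1, ?_⟩
  have e1 := J2_mul _ k1
  rw [sym_neg, mul_add] at e1
  have e2 := eq_neg_of_add_eq_zero_left e1
  rw [neg_eq] at e2
  rw [h0, mul_add, cm a f2 g2, J2_mul _ k2, add_zero, cm a f1 g1, cm (-1) f1 g1, e2]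

theorem deg_step (n : ℕ) (z : KM 2 F) (hz : z ∈ KMn 2 F (n + 3)) :
    ∃ y ∈ KMn 2 F (n + 2), z = sym 2 (-1 : Fˣ) * y := by
  induction hz using Submodule.span_induction with
  | mem x hx =>
    obtain ⟨l, hl, rfl⟩ := hx
    match l, hl with
    | a :: b :: c :: l, hl =>
      obtain ⟨f, g, h⟩ := three_eq h2 H a b c
      refine ⟨((f :: g :: l).map (sym 2)).prod, Submodule.subset_span ⟨f :: g :: l, ?_, rfl⟩, ?_⟩
      · simp only [List.length_cons] at hl ⊢
        omega
      · simp only [List.map_cons, List.prod_cons]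
        rw [← mul_assoc (sym 2 f), ← mul_assoc (sym 2 (-1 : Fˣ)), ← h]
        noncomm_ring
  | zero => exact ⟨0, zero_mem _, by rw [mul_zero]⟩
  | add x y _ _ h1 h3 =>
    obtain ⟨x', hx', rfl⟩ := h1
    obtain ⟨y', hy', rfl⟩ := h3
    exact ⟨x' + y', add_mem hx' hy', by rw [mul_add]⟩
  | smul c x _ h1 =>
    obtain ⟨x', hx', rfl⟩ := h1
    exact ⟨c • x', Submodule.smul_mem _ _ hx', by rw [mul_smul_comm]⟩

theorem deg_two (n : ℕ) : ∀ z ∈ KMn 2 F (n + 2), ∃ y ∈ KMn 2 F 2,
    z = sym 2 (-1 : Fˣ) ^ n * y := by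
  induction n with
  | zero => exact fun z hz => ⟨z, hz, by rw [pow_zero, one_mul]⟩
  | succ n ih =>
    intro z hz
    obtain ⟨y, hy, rfl⟩ := deg_step h2 H n z hz
    obtain ⟨y', hy', rfl⟩ := ih y hy
    exact ⟨y', hy', by rw [pow_succ', mul_assoc]⟩

omit h2 H in
theorem span_chi (W : Submodule (ZMod 2) (KM 2 F)) (hW : W ≤ KMn 2 F 1) (y : KM 2 F)
    (hy : y ∈ Ideal.span (W : Set (KM 2 F))) : ∃ ws : List Fˣ, (∀ w ∈ ws, sym 2 w ∈ W) ∧
      ∀ O : Ordg F, (∀ w ∈ ws, chi O (sym 2 w) = 0) → chi O y = 0 := by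
  induction hy using Submodule.span_induction with
  | mem x hx =>
    obtain ⟨a, rfl⟩ := exists_sym x (hW hx)
    refine ⟨[a], ?_, ?_⟩
    · intro w hw
      rw [List.mem_singleton.1 hw]
      exact hx
    · intro O h
      exact h a (by simp)
  | zero => exact ⟨[], by simp, fun O _ => map_zero _⟩
  | add x y _ _ h1 h3 =>
    obtain ⟨w1, k1, k1'⟩ := h1
    obtain ⟨w2, k2, k2'⟩ := h3
    refine ⟨w1 ++ w2, ?_, ?_⟩
    · intro w hw
      rcases List.mem_append.1 hw with h | h
      · exact k1 w h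
      · exact k2 w h
    · intro O h
      rw [map_add, k1' O (fun w hw => h w (List.mem_append_left _ hw)),
        k2' O (fun w hw => h w (List.mem_append_right _ hw)), add_zero]
  | smul c x _ h1 =>
    obtain ⟨w1, k1, k1'⟩ := h1
    refine ⟨w1, k1, ?_⟩
    intro O h
    rw [smul_eq_mul, map_mul, k1' O h, mul_zero]

/-- the Milnor ring modulo two is universally Koszul -/
theorem UK_V : UK (KMn 2 F) := by
  intro W hW x hx n hn z hz hzx
  obtain ⟨a, rfl⟩ := exists_sym x hx
  rcases Nat.lt_or_ge n 2 with h1 | h1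
  · obtain rfl : n = 1 := by omega
    exact Ideal.subset_span ⟨hz, hzx⟩
  · obtain ⟨m, rfl⟩ : ∃ m, n = m + 2 := ⟨n - 2, by omega⟩
    obtain ⟨y, hy, rfl⟩ := deg_two h2 H m z hz
    obtain ⟨ws, hws, hchi⟩ := span_chi W hW _ hzx
    refine Ideal.mul_mem_left _ _ ?_
    set Λ : Set (KM 2 F) := {v | v ∈ KMn 2 F 1 ∧ v * sym 2 a ∈ Ideal.span (W : Set (KM 2 F))}
      with hΛ
    let S : Submodule (ZMod 2) (KM 2 F) :=
      (Ideal.span Λ : Submodule (KM 2 F) (KM 2 F)).restrictScalars (ZMod 2)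
    change y ∈ S
    refine uk_two h2 H a S ?_ ws ?_ y hy ?_
    · unfold J2
      rw [Submodule.span_le]
      rintro v ⟨y, n, r, s, h, rfl⟩
      change sym 2 y * sym 2 n ∈ Ideal.span Λ
      refine Ideal.mul_mem_left _ _ (Ideal.subset_span ⟨sym_mem 2 n, ?_⟩)
      rw [norm_sym a n r s h]
      exact zero_mem _
    · intro w hw
      unfold J2
      rw [Submodule.span_le]
      rintro v ⟨y, n, r, s, h, rfl⟩
      change sym 2 y * sym 2 n ∈ Ideal.span Λ
      refine Ideal.mul_mem_left _ _ (Ideal.subset_span ⟨sym_mem 2 n, ?_⟩)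
      have k := norm_sym (a * w) n r s h
      rw [sym_mul, mul_add] at k
      have k2 := eq_neg_of_add_eq_zero_left k
      rw [k2]
      exact neg_mem (Ideal.mul_mem_left _ _ (Ideal.subset_span (hws w hw)))
    · intro O hO
      have k := hchi O hO
      rw [map_mul, map_mul, map_pow, chi_neg_one, one_pow, one_mul] at k
      exact k

theorem koszul_V : IsKoszul (KMn 2 F) :=
  koszul_of_UK (KM_zero 2) (one_ne 2) (KM_gen 2) (UK_V h2 H)

end

/-- the hypothesis in terms of three-fold Pfister forms over `F(√-1)` -/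
theorem HV_of_pf3 {E : Type v} [Field E] [Algebra F E] (h2 : (2 : F) ≠ 0) (i : E)
    (hi : i ^ 2 = -1) (hE : ∀ e : E, ∃ x y : F, e = algebraMap F E x + algebraMap F E y * i)
    (H : ∀ a b c : Eˣ, ∃ x : Fin 8 → E, x ≠ 0 ∧ pf3 (a : E) b c x = 0) : HV F := by
  have h2E : (2 : E) ≠ 0 := by
    intro h
    apply h2
    apply (algebraMap F E).injective
    rw [map_ofNat, map_zero]
    exact h
  -- all forms `<<a, b>>` over `E` are universal
  have hZ : ∀ a b : Eˣ, ∀ c : E, Z (a : E) b c := by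
    intro a b c
    by_cases hc : c = 0
    · rw [hc]
      exact Z_zero _ _
    · obtain ⟨x, hx, h⟩ := H a b (Units.mk0 c hc)
      rw [Units.val_mk0] at h
      unfold pf3 at h
      by_cases hQ : (x 4 ^ 2 - a * x 5 ^ 2) - b * (x 6 ^ 2 - a * x 7 ^ 2) = 0
      · have hP : (x 0 ^ 2 - a * x 1 ^ 2) - b * (x 2 ^ 2 - a * x 3 ^ 2) = 0 := by
          rw [hQ] at h
          linear_combination h
        have key : ∀ x1 y1 x2 y2 : E, ¬ (x1 = 0 ∧ y1 = 0 ∧ x2 = 0 ∧ y2 = 0) →
            (x1 ^ 2 - a * y1 ^ 2) - b * (x2 ^ 2 - a * y2 ^ 2) = 0 → Z (a : E) b c := by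
          intro x1 y1 x2 y2 hne h0
          by_cases ha : IsSquare (a : E)
          · obtain ⟨s, hs⟩ := ha
            have hs0 : s ≠ 0 := by
              rintro rfl
              apply a.ne_zero
              rw [hs, mul_zero]
            refine ⟨(c + 1) / 2, (c - 1) / (2 * s), 0, 0, ?_⟩
            rw [hs]
            field_simp
            ring
          · have hQ2 : x2 ^ 2 - a * y2 ^ 2 ≠ 0 := by
              intro h3
              rw [h3, mul_zero, sub_zero] at h0
              obtain ⟨e1, e2⟩ := norm_eq_zero ha h0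
              obtain ⟨e3, e4⟩ := norm_eq_zero ha h3
              exact hne ⟨e1, e2, e3, e4⟩
            have k : Z (a : E) (Units.mk0 c hc : Eˣ) b := by
              have e : (b : E) = (x1 ^ 2 - a * y1 ^ 2) * (x2 ^ 2 - a * y2 ^ 2)⁻¹ := by
                field_simp
                linear_combination -h0
              rw [e]
              exact Z_mul (Z_norm _ _ _ _) (Z_inv (Z_norm _ _ _ _))
            have := Z_swap23' h2E k
            rwa [Units.val_mk0] at this
        by_cases h3 : x 4 = 0 ∧ x 5 = 0 ∧ x 6 = 0 ∧ x 7 = 0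
        · by_cases h4 : x 0 = 0 ∧ x 1 = 0 ∧ x 2 = 0 ∧ x 3 = 0
          · exfalso
            apply hx
            funext j
            fin_cases j
            · exact h4.1
            · exact h4.2.1
            · exact h4.2.2.1
            · exact h4.2.2.2
            · exact h3.1
            · exact h3.2.1
            · exact h3.2.2.1
            · exact h3.2.2.2
          · exact key _ _ _ _ h4 hP
        · exact key _ _ _ _ h3 hQ
      · have e : c = ((x 0 ^ 2 - a * x 1 ^ 2) - b * (x 2 ^ 2 - a * x 3 ^ 2)) *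
            ((x 4 ^ 2 - a * x 5 ^ 2) - b * (x 6 ^ 2 - a * x 7 ^ 2))⁻¹ := by
          field_simp
          linear_combination -h
        rw [e]
        exact Z_mul ⟨_, _, _, _, rfl⟩ (Z_inv ⟨_, _, _, _, rfl⟩)
  intro a b c d
  have ha : algebraMap F E a ≠ 0 := by
    rw [Ne, map_eq_zero]
    exact a.ne_zero
  have hb : algebraMap F E b ≠ 0 := by
    rw [Ne, map_eq_zero]
    exact b.ne_zero
  by_cases hF : ∃ j : F, j ^ 2 = -1
  · -- here `E = F`
    obtain ⟨j, hj⟩ := hF
    have hsurj : ∀ e : E, ∃ x : F, algebraMap F E x = e := by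
      have hij : i = algebraMap F E j ∨ i = -algebraMap F E j := by
        apply sq_eq_sq_iff_eq_or_eq_neg.1
        rw [hi, ← map_pow, hj, map_neg, map_one]
      intro e
      obtain ⟨x, y, rfl⟩ := hE e
      rcases hij with h | h
      · exact ⟨x + y * j, by rw [h]; simp⟩
      · exact ⟨x - y * j, by rw [h]; simp; ring⟩
    have hZF : ∀ c : F, Z (a : F) b c := by
      intro c
      obtain ⟨x, y, z, w, h⟩ := hZ (Units.mk0 _ ha) (Units.mk0 _ hb) (algebraMap F E c)
      obtain ⟨x, rfl⟩ := hsurj x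
      obtain ⟨y, rfl⟩ := hsurj y
      obtain ⟨z, rfl⟩ := hsurj z
      obtain ⟨w, rfl⟩ := hsurj w
      refine ⟨x, y, z, w, ?_⟩
      apply (algebraMap F E).injective
      rw [← h]
      simp
    obtain ⟨x1, y1, z1, w1, h1⟩ := hZF (c + j * d)
    obtain ⟨x3, y3, z3, w3, h3⟩ := hZF (c - j * d)
    have hj0 : j ≠ 0 := by
      rintro rfl
      rw [zero_pow two_ne_zero] at hj
      exact one_ne_zero (neg_eq_zero.1 hj.symm)
    refine ⟨(x1 + x3) / 2, (y1 + y3) / 2, (z1 + z3) / 2, (w1 + w3) / 2,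
      -j * (x1 - x3) / 2, -j * (y1 - y3) / 2, -j * (z1 - z3) / 2, -j * (w1 - w3) / 2, ?_, ?_⟩
    · field_simp
      linear_combination 2 * h1 + 2 * h3 - ((x1 - x3) ^ 2 - a * (y1 - y3) ^ 2 -
        b * ((z1 - z3) ^ 2 - a * (w1 - w3) ^ 2)) * hj
    · field_simp
      linear_combination -j * h1 + j * h3 - 2 * d * hj
  · obtain ⟨x, y, z, w, h⟩ := hZ (Units.mk0 _ ha) (Units.mk0 _ hb)
      (algebraMap F E c + algebraMap F E d * i)
    obtain ⟨x, x', rfl⟩ := hE x
    obtain ⟨y, y', rfl⟩ := hE y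
    obtain ⟨z, z', rfl⟩ := hE z
    obtain ⟨w, w', rfl⟩ := hE w
    rw [Units.val_mk0, Units.val_mk0] at h
    have hlin : ∀ s t : F, algebraMap F E s + algebraMap F E t * i = 0 → s = 0 ∧ t = 0 := by
      intro s t hst
      by_cases ht : t = 0
      · refine ⟨?_, ht⟩
        rw [ht, map_zero, zero_mul, add_zero, map_eq_zero] at hst
        exact hst
      · exfalso
        apply hF
        refine ⟨s / t, ?_⟩
        apply (algebraMap F E).injective
        have ht' : algebraMap F E t ≠ 0 := by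
          rw [Ne, map_eq_zero]
          exact ht
        have e : i = -(algebraMap F E s / algebraMap F E t) := by
          field_simp
          linear_combination hst
        rw [map_pow, map_div₀, map_neg, map_one, ← hi, e]
        ring
    have k := hlin ((x ^ 2 - a * y ^ 2 - b * (z ^ 2 - a * w ^ 2)) -
      (x' ^ 2 - a * y' ^ 2 - b * (z' ^ 2 - a * w' ^ 2)) - c)
      (2 * (x * x' - a * y * y' - b * (z * z' - a * w * w')) - d) (by
        simp only [map_sub, map_mul, map_pow, map_ofNat]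
        linear_combination h - ((algebraMap F E x') ^ 2 - algebraMap F E a * (algebraMap F E y') ^ 2 -
          algebraMap F E b * ((algebraMap F E z') ^ 2 -
            algebraMap F E a * (algebraMap F E w') ^ 2)) * hi)
    exact ⟨x, y, z, w, x', y', z', w', sub_eq_zero.1 k.1, sub_eq_zero.1 k.2⟩

end Pool.Agent.KMil
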