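import Pool.Agent.KMil.VMain

/-!
Degree two elements of signature zero, and universal Koszulity.
-/

set_option autoImplicit false

namespace Pool.Agent.KMil

universe u v

variable {F : Type u} [Field F]

section

variable (h2 : (2 : F) ≠ 0) (H : HV F)

include h2 H

theorem mono_eq (f g P h : Fˣ)
    (h1 : ∀ O : Ordg F, chi O (sym 2 P) * chi O (sym 2 h) = chi O (sym 2 f) * chi O (sym 2 g))
    (h3 : ∀ O : Ordg F, chi O (sym 2 P) * (1 + chi O (sym 2 f)) = 0) :
    sym 2 P * sym 2 h + sym 2 f * sym 2 g ∈ J2 (-1 : Fˣ) := by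
  have e : sym 2 P * sym 2 h + sym 2 f * sym 2 g =
      sym 2 P * sym 2 (h * g) + sym 2 (P * f) * sym 2 g := by
    rw [sym_mul, sym_mul, mul_add, add_mul]
    have := two_zero (sym 2 P * sym 2 g)
    calc sym 2 P * sym 2 h + sym 2 f * sym 2 g
        = sym 2 P * sym 2 h + sym 2 f * sym 2 g + 0 := (add_zero _).symm
      _ = _ := by
        rw [← this]
        abel
  rw [e]
  apply add_mem
  · apply mem_J2_of_chi' h2 H
    intro O
    have k1 := h1 O
    have k3 := h3 O
    rw [chi_mul]
    generalize chi O (sym 2 P) = A at *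
    generalize chi O (sym 2 h) = B at *
    generalize chi O (sym 2 f) = C at *
    generalize chi O (sym 2 g) = D at *
    revert A B C D
    decide
  · apply mem_J2_of_chi' h2 H
    intro O
    have k1 := h1 O
    have k3 := h3 O
    rw [chi_mul]
    generalize chi O (sym 2 P) = A at *
    generalize chi O (sym 2 h) = B at *
    generalize chi O (sym 2 f) = C at *
    generalize chi O (sym 2 g) = D at *
    revert A B C D
    decide

/-- symbols with the same signs agree modulo norms from `F(√-1)` -/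
theorem symbol_eq (f g f' g' : Fˣ)
    (h : ∀ O : Ordg F, chi O (sym 2 f) * chi O (sym 2 g) =
      chi O (sym 2 f') * chi O (sym 2 g')) :
    sym 2 f * sym 2 g + sym 2 f' * sym 2 g' ∈ J2 (-1 : Fˣ) := by
  have hZ : Z (f : F) g ((-f' : Fˣ) : F) := by
    apply Z_of_chi h2 H
    intro O
    rw [h O, chi_neg]
    generalize chi O (sym 2 f') = C at *
    generalize chi O (sym 2 g') = D at *
    revert C D
    decide
  obtain ⟨x, y, z, w, hx⟩ := hZ
  rw [Units.val_neg] at hx
  by_cases hd : (f : F) * y ^ 2 + g * (z ^ 2 - f * w ^ 2) = 0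
  · refine mono_eq h2 H f' g' f g h ?_
    intro O
    have e : -(f' : F) ∈ O.P := by
      rw [← hx]
      have : x ^ 2 - (f : F) * y ^ 2 - g * (z ^ 2 - f * w ^ 2) = x ^ 2 := by
        linear_combination -hd
      rw [this]
      exact O.sq x
    rw [chi_of_neg O f' e]
    generalize chi O (sym 2 f) = A at *
    revert A
    decide
  · obtain ⟨d, hdv⟩ : ∃ d : Fˣ, (d : F) = f * y ^ 2 + g * (z ^ 2 - f * w ^ 2) :=
      ⟨Units.mk0 _ hd, rfl⟩
    obtain ⟨e, -, he⟩ := pure_sub h2 f g d y z w hdv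
    rw [he]
    refine mono_eq h2 H f' g' d e ?_ ?_
    · intro O
      rw [← h O, ← map_mul, ← map_mul, he]
    · intro O
      have hdf : (d : F) = x ^ 2 + f' := by
        rw [hdv]
        linear_combination -hx
      by_cases hc : chi O (sym 2 f') = 0
      · have k : (d : F) ∈ O.P := by
          rw [hdf]
          exact O.add _ (O.sq x) _ (chi_mem hc)
        rw [chi_of_mem k, zero_mul]
      · have k : chi O (sym 2 f') = 1 := by
          generalize chi O (sym 2 f') = A at *
          revert A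
          decide
        rw [k]
        generalize chi O (sym 2 d) = A at *
        revert A
        decide

/-- basic sets -/
def Bs (U : Ordg F → ZMod 2) : Prop :=
  ∃ f g : Fˣ, ∀ O : Ordg F, chi O (sym 2 f) * chi O (sym 2 g) = U O

end

/-- norms from `F(√-1)`, as an additive subgroup -/
noncomputable def JG (F : Type u) [Field F] : AddSubgroup (KM 2 F) where
  carrier := {z | z ∈ J2 (-1 : Fˣ)}
  add_mem' := fun h h' => (J2 (-1 : Fˣ)).add_mem h h'
  zero_mem' := (J2 (-1 : Fˣ)).zero_mem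
  neg_mem' := by
    intro x hx
    rw [neg_eq]
    exact hx

/-- classes modulo norms from `F(√-1)` -/
noncomputable def cl : KM 2 F →+ (KM 2 F ⧸ JG F) := QuotientAddGroup.mk' (JG F)

theorem cl_eq_zero {z : KM 2 F} : cl z = 0 ↔ z ∈ J2 (-1 : Fˣ) :=
  QuotientAddGroup.eq_zero_iff (N := JG F) z

theorem z_two : ∀ ε : ZMod 2, ε = 0 ∨ ε = 1 := by decide

theorem dec1 : ∀ ε S A B V : ZMod 2, V * (A * B + S) = V * ε →
    (1 + A) * V * S = (1 + A) * V * ε := by decide

theorem dec2 : ∀ ε S A B V : ZMod 2, V * (A * B + S) = V * ε →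
    (1 + B) * (A * V) * S = (1 + B) * (A * V) * ε := by decide

theorem dec3 : ∀ ε S A B V : ZMod 2, V * (A * B + S) = V * ε →
    B * (A * V) * S = B * (A * V) * (ε + 1) := by decide

theorem cl_surj (q : KM 2 F ⧸ JG F) : ∃ z, cl z = q := QuotientAddGroup.mk'_surjective (JG F) q

theorem q_two (q : KM 2 F ⧸ JG F) : q + q = 0 := by
  obtain ⟨z, rfl⟩ := cl_surj q
  rw [← map_add, two_zero, map_zero]

open Classical in
/-- the class of a basic set -/
noncomputable def mu (U : Ordg F → ZMod 2) : KM 2 F ⧸ JG F :=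
  if h : Bs U then cl (sym 2 h.choose * sym 2 h.choose_spec.choose) else 0

section

variable (h2 : (2 : F) ≠ 0) (H : HV F)

include h2 H

theorem mu_eq (U : Ordg F → ZMod 2) (f g : Fˣ)
    (h : ∀ O : Ordg F, chi O (sym 2 f) * chi O (sym 2 g) = U O) :
    mu U = cl (sym 2 f * sym 2 g) := by
  have hb : Bs U := ⟨f, g, h⟩
  unfold mu
  rw [dif_pos hb]
  have k := hb.choose_spec.choose_spec
  have k2 := symbol_eq h2 H f g hb.choose hb.choose_spec.choose (fun O => (h O).trans (k O).symm)
  rw [← cl_eq_zero, map_add] at k2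
  have k3 := q_two (cl (sym 2 f * sym 2 g))
  exact (add_left_cancel (k3.trans k2.symm)).symm

theorem mu_zero (U : Ordg F → ZMod 2) (h : ∀ O, U O = 0) : mu U = 0 := by
  rw [mu_eq h2 H U 1 1 (by intro O; rw [h O, sym_one, map_zero, mul_zero]), sym_one, mul_zero,
    map_zero]

theorem Bs_neg (a : Fˣ) {U : Ordg F → ZMod 2} (hU : Bs U) :
    Bs (fun O => chi O (sym 2 a) * U O) := by
  obtain ⟨f, g, h⟩ := hU
  obtain ⟨f1, g1, f2, g2, -, h1, -⟩ := split h2 H a f g
  exact ⟨f1, g1, fun O => by rw [h1 O, h O]⟩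

theorem Bs_pos (a : Fˣ) {U : Ordg F → ZMod 2} (hU : Bs U) :
    Bs (fun O => (1 + chi O (sym 2 a)) * U O) := by
  obtain ⟨f, g, h⟩ := hU
  obtain ⟨f1, g1, f2, g2, -, -, h1⟩ := split h2 H a f g
  exact ⟨f2, g2, fun O => by rw [h1 O, h O]⟩

theorem mu_split (a : Fˣ) {U : Ordg F → ZMod 2} (hU : Bs U) :
    mu U = mu (fun O => chi O (sym 2 a) * U O) + mu (fun O => (1 + chi O (sym 2 a)) * U O) := by
  obtain ⟨f, g, h⟩ := hU
  obtain ⟨f1, g1, f2, g2, h0, h1, h3⟩ := split h2 H a f g
  rw [mu_eq h2 H U f g h, mu_eq h2 H _ f1 g1 (fun O => by rw [h1 O, h O]),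
    mu_eq h2 H _ f2 g2 (fun O => by rw [h3 O, h O]), h0, map_add]

/-- splitting in three parts -/
theorem mu_split3 (a b : Fˣ) {U : Ordg F → ZMod 2} (hU : Bs U) :
    mu U = mu (fun O => chi O (sym 2 b) * (chi O (sym 2 a) * U O)) +
      mu (fun O => (1 + chi O (sym 2 b)) * (chi O (sym 2 a) * U O)) +
      mu (fun O => (1 + chi O (sym 2 a)) * U O) := by
  rw [mu_split h2 H a hU, mu_split h2 H b (Bs_neg h2 H a hU)]

theorem mu_sum (L : List (Fˣ × Fˣ)) : ∀ U : Ordg F → ZMod 2, Bs U → ∀ ε : ZMod 2,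
    (∀ O, U O * (L.map (fun p => chi O (sym 2 p.1) * chi O (sym 2 p.2))).sum = U O * ε) →
    (L.map (fun p => mu (fun O => U O * (chi O (sym 2 p.1) * chi O (sym 2 p.2))))).sum =
      ε.val • mu U := by
  induction L with
  | nil =>
    intro U hU ε h
    simp only [List.map_nil, List.sum_nil, mul_zero] at h ⊢
    rcases z_two ε with rfl | rfl
    · rw [show (0 : ZMod 2).val = 0 from rfl, zero_nsmul]
    · rw [mu_zero h2 H U (fun O => by rw [← mul_one (U O), ← h O]), nsmul_zero]
  | cons p L ih =>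
    intro U hU ε h
    obtain ⟨a, b⟩ := p
    simp only [List.map_cons, List.sum_cons] at h ⊢
    have ih1 := ih _ (Bs_pos h2 H a hU) ε (fun O => dec1 _ _ _ _ _ (h O))
    have ih2 := ih _ (Bs_pos h2 H b (Bs_neg h2 H a hU)) ε (fun O => dec2 _ _ _ _ _ (h O))
    have ih3 := ih _ (Bs_neg h2 H b (Bs_neg h2 H a hU)) (ε + 1) (fun O => dec3 _ _ _ _ _ (h O))
    have hsum : ∀ L' : List (Fˣ × Fˣ),
        (L'.map (fun p => mu (fun O => U O * (chi O (sym 2 p.1) * chi O (sym 2 p.2))))).sum =
        (L'.map (fun p => mu (fun O => chi O (sym 2 b) * (chi O (sym 2 a) * U O) *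
          (chi O (sym 2 p.1) * chi O (sym 2 p.2))))).sum +
        (L'.map (fun p => mu (fun O => (1 + chi O (sym 2 b)) * (chi O (sym 2 a) * U O) *
          (chi O (sym 2 p.1) * chi O (sym 2 p.2))))).sum +
        (L'.map (fun p => mu (fun O => (1 + chi O (sym 2 a)) * U O *
          (chi O (sym 2 p.1) * chi O (sym 2 p.2))))).sum := by
      intro L'
      induction L' with
      | nil => simp
      | cons q L' ih' =>
        have hq : Bs (fun O => U O * (chi O (sym 2 q.1) * chi O (sym 2 q.2))) := by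
          obtain ⟨f, g, hfg⟩ := Bs_neg h2 H q.2 (Bs_neg h2 H q.1 hU)
          exact ⟨f, g, fun O => by rw [hfg O]; ring⟩
        simp only [List.map_cons, List.sum_cons]
        rw [ih', mu_split3 h2 H a b hq]
        simp only [mul_assoc]
        abel
    have hhead : mu (fun O => U O * (chi O (sym 2 a) * chi O (sym 2 b))) =
        mu (fun O => chi O (sym 2 b) * (chi O (sym 2 a) * U O)) := by
      congr 1
      funext O
      ring
    rw [hsum, ih1, ih2, ih3, hhead, mu_split3 h2 H a b hU]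
    rcases z_two ε with rfl | rfl
    · rw [show ((0 : ZMod 2) + 1).val = 1 from rfl, show (0 : ZMod 2).val = 0 from rfl]
      simp only [zero_nsmul, one_nsmul, add_zero]
      exact q_two _
    · rw [show ((1 : ZMod 2) + 1).val = 0 from rfl, show (1 : ZMod 2).val = 1 from rfl]
      simp only [zero_nsmul, one_nsmul, zero_add]
      abel

omit h2 H in
theorem exists_list (z : KM 2 F) (hz : z ∈ KMn 2 F 2) :
    ∃ L : List (Fˣ × Fˣ), z = (L.map (fun p => sym 2 p.1 * sym 2 p.2)).sum := by
  induction hz using Submodule.span_induction with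
  | mem x hx =>
    obtain ⟨l, hl, rfl⟩ := hx
    obtain ⟨b, c, rfl⟩ := List.length_eq_two.1 hl
    exact ⟨[(b, c)], by simp⟩
  | zero => exact ⟨[], by simp⟩
  | add x y _ _ h1 h2 =>
    obtain ⟨L1, rfl⟩ := h1
    obtain ⟨L2, rfl⟩ := h2
    exact ⟨L1 ++ L2, by simp⟩
  | smul c x _ h1 =>
    obtain ⟨L, rfl⟩ := h1
    rcases z_two c with rfl | rfl
    · exact ⟨[], by rw [zero_smul]; simp⟩
    · exact ⟨L, by rw [one_smul]⟩

/-- an element of degree two without signature is a sum of norms from `F(√-1)` -/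
theorem sign_zero (z : KM 2 F) (hz : z ∈ KMn 2 F 2) (h : ∀ O : Ordg F, chi O z = 0) :
    z ∈ J2 (-1 : Fˣ) := by
  obtain ⟨L, rfl⟩ := exists_list z hz
  have hb : Bs (fun _ : Ordg F => (1 : ZMod 2)) :=
    ⟨-1, -1, fun O => by rw [chi_neg_one, mul_one]⟩
  have k := mu_sum h2 H L _ hb 0 (fun O => by
    rw [mul_zero, one_mul, ← h O, map_list_sum, List.map_map]
    congr 1
    apply List.map_congr_left
    intro p _
    simp only [Function.comp_apply, map_mul])
  rw [show (0 : ZMod 2).val = 0 from rfl, zero_nsmul] at k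
  rw [← cl_eq_zero, map_list_sum, List.map_map, ← k]
  congr 1
  apply List.map_congr_left
  intro p _
  rw [mu_eq h2 H _ p.1 p.2 (fun O => by rw [one_mul])]
  rfl

end

end Pool.Agent.KMil
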