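import Pool.Agent.KMil.VOrd

/-!
The Milnor ring modulo 2 of a field `F` such that all three-fold Pfister forms over `F(√-1)` are
isotropic.
-/

set_option autoImplicit false

namespace Pool.Agent.KMil

universe u v

variable {F : Type u} [Field F]

/-- the space spanned by the products `{y} {n}` with `n` a nonzero value of `x ^ 2 - a y ^ 2` -/
noncomputable def J2 (a : Fˣ) : Submodule (ZMod 2) (KM 2 F) :=
  Submodule.span (ZMod 2) {z | ∃ y n : Fˣ, ∃ r s : F, (n : F) = r ^ 2 - a * s ^ 2 ∧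
    z = sym 2 y * sym 2 n}

theorem mem_J2_norm (a y n : Fˣ) (r s : F) (h : (n : F) = r ^ 2 - a * s ^ 2) :
    sym 2 y * sym 2 n ∈ J2 a := Submodule.subset_span ⟨y, n, r, s, h, rfl⟩

theorem J2_mul (a : Fˣ) {z : KM 2 F} (hz : z ∈ J2 a) : z * sym 2 a = 0 := by
  unfold J2 at hz
  induction hz using Submodule.span_induction with
  | mem x hx =>
    obtain ⟨y, n, r, s, h, rfl⟩ := hx
    rw [mul_assoc, norm_sym a n r s h, mul_zero]
  | zero => rw [zero_mul]
  | add x y _ _ h1 h2 => rw [add_mul, h1, h2, add_zero]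
  | smul c x _ h1 => rw [smul_mul_assoc, h1, smul_zero]

theorem J2_le (a : Fˣ) {z : KM 2 F} (hz : z ∈ J2 a) : z ∈ KMn 2 F 2 := by
  unfold J2 at hz
  induction hz using Submodule.span_induction with
  | mem x hx =>
    obtain ⟨y, n, r, s, h, rfl⟩ := hx
    exact Submodule.subset_span ⟨[y, n], rfl, by simp⟩
  | zero => exact zero_mem _
  | add x y _ _ h1 h2 => exact add_mem h1 h2
  | smul c x _ h1 => exact Submodule.smul_mem _ c h1

theorem mem_J2_rep (a b m : Fˣ) (h : Z (a : F) b m) : sym 2 b * sym 2 m ∈ J2 a := by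
  obtain ⟨x1, y1, x2, y2, h⟩ := h
  by_cases h2 : x2 ^ 2 - a * y2 ^ 2 = 0
  · rw [h2, mul_zero, sub_zero] at h
    exact mem_J2_norm a b m x1 y1 h.symm
  · obtain ⟨n2, hn2⟩ : ∃ n : Fˣ, (n : F) = x2 ^ 2 - a * y2 ^ 2 := ⟨Units.mk0 _ h2, rfl⟩
    by_cases h1 : x1 ^ 2 - a * y1 ^ 2 = 0
    · have e : m = -b * n2 := by
        apply Units.ext
        rw [← h, h1, Units.val_mul, hn2]
        simp
      rw [e, sym_mul, mul_add, sym_neg_self, zero_add]
      exact mem_J2_norm a b _ x2 y2 hn2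
    · obtain ⟨n1, hn1⟩ : ∃ n : Fˣ, (n : F) = x1 ^ 2 - a * y1 ^ 2 := ⟨Units.mk0 _ h1, rfl⟩
      have k := sym_steinberg 2 (b * n2 * n1⁻¹) (m * n1⁻¹) (by
        have h1' : (n1 : F) ≠ 0 := n1.ne_zero
        simp only [Units.val_mul, Units.val_inv_eq_inv_val]
        rw [← h, ← hn1, ← hn2]
        field_simp
        ring)
      rw [sym_mul, sym_mul, sym_mul, sym_inv, neg_eq] at k
      have c1 := sym_comm n1 m
      have c2 := sym_comm n2 m
      have c3 := sym_comm n2 n1
      have e : sym 2 b * sym 2 m = sym 2 b * sym 2 n1 + (sym 2 m * sym 2 n2 + sym 2 n1 * sym 2 n2)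
          + (sym 2 m * sym 2 n1 + sym 2 n1 * sym 2 n1) := by
        have k' : sym 2 b * sym 2 m + (sym 2 b * sym 2 n1 + (sym 2 m * sym 2 n2 +
            sym 2 n1 * sym 2 n2) + (sym 2 m * sym 2 n1 + sym 2 n1 * sym 2 n1)) = 0 := by
          rw [← c1, ← c2, ← c3, ← k]
          noncomm_ring
        have k2 := eq_neg_of_add_eq_zero_left k'
        rwa [neg_eq] at k2
      rw [e]
      exact add_mem (add_mem (mem_J2_norm a _ _ _ _ hn1) (add_mem (mem_J2_norm a _ _ _ _ hn2)
        (mem_J2_norm a _ _ _ _ hn2))) (add_mem (mem_J2_norm a _ _ _ _ hn1)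
        (mem_J2_norm a _ _ _ _ hn1))

theorem J2_neg_one_le (H : HV F) (a : Fˣ) : J2 (-1 : Fˣ) ≤ J2 a := by
  unfold J2
  rw [Submodule.span_le]
  rintro z ⟨y, n, r, s, h, rfl⟩
  apply mem_J2_rep
  have e : (n : F) = r ^ 2 + s ^ 2 := by
    rw [h, Units.val_neg, Units.val_one]
    ring
  rw [e]
  by_cases hr : r = 0
  · rw [hr, zero_pow two_ne_zero, zero_add]
    exact Z_sq _ _ _
  · have e2 : r ^ 2 + s ^ 2 = r ^ 2 * (1 + (s / r) ^ 2) := by
      field_simp
    rw [e2]
    exact Z_mul (Z_sq _ _ _) (sum_sq H _ _ _)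

theorem chi_of_J2 (O : Ordg F) (a : Fˣ) {z : KM 2 F} (hz : z ∈ J2 a) :
    chi O z * chi O (sym 2 a) = 0 := by
  rw [← map_mul, J2_mul a hz, map_zero]

theorem chi_neg (O : Ordg F) (a : Fˣ) : chi O (sym 2 (-a)) = 1 + chi O (sym 2 a) := by
  rw [sym_neg, map_add, chi_neg_one]

theorem chi_mul (O : Ordg F) (a b : Fˣ) :
    chi O (sym 2 (a * b)) = chi O (sym 2 a) + chi O (sym 2 b) := by
  rw [sym_mul, map_add]

/-- `<<a, b, c>>` isotropic gives a product of signs which vanishes -/
theorem chi_of_Z (O : Ordg F) {a b c : Fˣ} (h : Z (a : F) b c) :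
    chi O (sym 2 a) * chi O (sym 2 b) * chi O (sym 2 c) = 0 := by
  have k := chi_of_J2 O a (mem_J2_rep a b c h)
  rw [map_mul] at k
  rw [mul_comm (chi O (sym 2 a)), mul_right_comm, k]

section

variable (h2 : (2 : F) ≠ 0) (H : HV F)

include h2 H

theorem mem_J2_of_chi (a f g : Fˣ)
    (h : ∀ O : Ordg F, chi O (sym 2 a) * (chi O (sym 2 f) * chi O (sym 2 g)) = 0) :
    sym 2 f * sym 2 g ∈ J2 a := by
  apply mem_J2_rep
  apply Z_of_chi h2 H
  intro O
  rw [mul_assoc]
  exact h O

theorem mem_J2_of_chi' (f g : Fˣ)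
    (h : ∀ O : Ordg F, chi O (sym 2 f) * chi O (sym 2 g) = 0) :
    sym 2 f * sym 2 g ∈ J2 (-1 : Fˣ) := by
  apply mem_J2_of_chi h2 H
  intro O
  rw [h O, mul_zero]

/-- splitting a symbol according to the sign of `a` -/
theorem split (a f g : Fˣ) : ∃ f1 g1 f2 g2 : Fˣ,
    sym 2 f * sym 2 g = sym 2 f1 * sym 2 g1 + sym 2 f2 * sym 2 g2 ∧
    (∀ O : Ordg F, chi O (sym 2 f1) * chi O (sym 2 g1) =
      chi O (sym 2 a) * (chi O (sym 2 f) * chi O (sym 2 g))) ∧
    (∀ O : Ordg F, chi O (sym 2 f2) * chi O (sym 2 g2) =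
      (1 + chi O (sym 2 a)) * (chi O (sym 2 f) * chi O (sym 2 g))) := by
  obtain ⟨x, y, z, w, x', y', z', w', e1, e2⟩ := H f g a 0
  have e3 : x * x' - f * y * y' - g * (z * z' - f * w * w') = 0 :=
    (mul_eq_zero.1 e2).resolve_left h2
  by_cases hn1 : x' ^ 2 - f * y' ^ 2 - g * (z' ^ 2 - f * w' ^ 2) = 0
  · rw [hn1, sub_zero] at e1
    have hZ : Z (f : F) g a := ⟨x, y, z, w, e1⟩
    refine ⟨1, 1, f, g, ?_, fun O => ?_, fun O => ?_⟩
    · rw [sym_one, zero_mul, zero_add]
    · rw [sym_one, map_zero, zero_mul, mul_comm, chi_of_Z O hZ]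
    · rw [add_mul, one_mul, mul_comm (chi O (sym 2 a)), chi_of_Z O hZ, add_zero]
  · obtain ⟨n, hn⟩ : ∃ n : Fˣ, (n : F) = x' ^ 2 - f * y' ^ 2 - g * (z' ^ 2 - f * w' ^ 2) :=
      ⟨Units.mk0 _ hn1, rfl⟩
    have hn0 : (n : F) ≠ 0 := n.ne_zero
    have hZn : Z (f : F) g n := ⟨x', y', z', w', hn.symm⟩
    by_cases hn2 : x ^ 2 - f * y ^ 2 - g * (z ^ 2 - f * w ^ 2) = 0
    · have e4 : n = -a := by
        apply Units.ext
        rw [Units.val_neg, ← e1, hn2, hn]
        ring
      refine ⟨f, g, 1, 1, ?_, fun O => ?_, fun O => ?_⟩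
      · rw [sym_one, zero_mul, add_zero]
      · have k := chi_of_Z O hZn
        rw [e4, chi_neg] at k
        generalize chi O (sym 2 a) = A at *
        generalize chi O (sym 2 f) = B at *
        generalize chi O (sym 2 g) = C at *
        revert A B C
        decide
      · have k := chi_of_Z O hZn
        rw [e4, chi_neg] at k
        rw [sym_one, map_zero, zero_mul]
        generalize chi O (sym 2 a) = A at *
        generalize chi O (sym 2 f) = B at *
        generalize chi O (sym 2 g) = C at *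
        revert A B C
        decide
    · have hs0 : -(x ^ 2 - f * y ^ 2 - g * (z ^ 2 - f * w ^ 2)) / n ≠ 0 :=
        div_ne_zero (neg_ne_zero.2 hn2) hn0
      obtain ⟨s, hs⟩ : ∃ s : Fˣ, (s : F) = -(x ^ 2 - f * y ^ 2 - g * (z ^ 2 - f * w ^ 2)) / n :=
        ⟨Units.mk0 _ hs0, rfl⟩
      -- the quotient of the two quaternions is pure
      have hs' : (s : F) = f * ((-x * y' + y * x' + g * z * w' - g * w * z') / n) ^ 2 +
          g * (((-x * z' + z * x' - f * y * w' + f * w * y') / n) ^ 2 -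
          f * ((-x * w' + w * x' - y * z' + z * y') / n) ^ 2) := by
        have hp : (x * x' - f * y * y' - g * (z * z' - f * w * w')) ^ 2 -
            f * (-x * y' + y * x' + g * z * w' - g * w * z') ^ 2 -
            g * ((-x * z' + z * x' - f * y * w' + f * w * y') ^ 2 -
            f * (-x * w' + w * x' - y * z' + z * y') ^ 2) =
            (x ^ 2 - f * y ^ 2 - g * (z ^ 2 - f * w ^ 2)) *
            (x' ^ 2 - f * y' ^ 2 - g * (z' ^ 2 - f * w' ^ 2)) := by ring
        rw [e3, ← hn] at hp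
        rw [hs]
        field_simp
        linear_combination hp
      obtain ⟨c, hc, hfg⟩ := pure_sub h2 f g s _ _ _ hs'
      have hZs : Z (s : F) c n⁻¹ := by
        have : Z (f : F) g ((n⁻¹ : Fˣ) : F) := by
          rw [Units.val_inv_eq_inv_val]
          exact Z_inv hZn
        have := (hc _).1 this
        rwa [Units.val_inv_eq_inv_val] at this
      have hZs' : Z (s : F) c ((n⁻¹ : Fˣ) : F) := by
        rw [Units.val_inv_eq_inv_val]
        exact hZs
      have hst : ((-s : Fˣ) : F) + ((-(a * n⁻¹) : Fˣ) : F) = 1 := by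
        rw [Units.val_neg, Units.val_neg, Units.val_mul, Units.val_inv_eq_inv_val, hs]
        field_simp
        rw [← e1, hn]
        ring
      have hK := sym_steinberg 2 _ _ hst
      have hchi : ∀ O : Ordg F, chi O (sym 2 f) * chi O (sym 2 g) =
          chi O (sym 2 s) * chi O (sym 2 c) := by
        intro O
        rw [← map_mul, hfg, map_mul]
      refine ⟨-(a * n⁻¹) * s, c, -(a * n⁻¹), c, ?_, fun O => ?_, fun O => ?_⟩
      · rw [hfg, sym_mul, add_mul, add_right_comm, two_zero, zero_add]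
      · have k1 := chi_of_Z O hZs'
        have k2 := congrArg (chi O) hK
        rw [map_mul, map_zero, chi_neg, chi_neg, chi_mul] at k2
        rw [hchi, chi_mul, chi_neg, chi_mul]
        generalize chi O (sym 2 a) = A at *
        generalize chi O (sym 2 s) = B at *
        generalize chi O (sym 2 c) = C at *
        generalize chi O (sym 2 n⁻¹) = D at *
        revert A B C D
        decide
      · have k1 := chi_of_Z O hZs'
        have k2 := congrArg (chi O) hK
        rw [map_mul, map_zero, chi_neg, chi_neg, chi_mul] at k2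
        rw [hchi, chi_neg, chi_mul]
        generalize chi O (sym 2 a) = A at *
        generalize chi O (sym 2 s) = B at *
        generalize chi O (sym 2 c) = C at *
        generalize chi O (sym 2 n⁻¹) = D at *
        revert A B C D
        decide

end

end Pool.Agent.KMil
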