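import Pool.Agent.KMil.VQuat

/-!
Torsion three-fold Pfister forms and orderings.
-/

set_option autoImplicit false

namespace Pool.Agent.KMil

universe u v

variable {F : Type u} [Field F]

/-- the forms `<<a, b>>` with `a`, `b` in `F` are universal over `F[i]`, `i ^ 2 = -1`
(real and imaginary parts) -/
def HV (F : Type u) [Field F] : Prop :=
  ∀ a b : Fˣ, ∀ c d : F, ∃ x y z w x' y' z' w' : F,
    (x ^ 2 - a * y ^ 2 - b * (z ^ 2 - a * w ^ 2)) -
      (x' ^ 2 - a * y' ^ 2 - b * (z' ^ 2 - a * w' ^ 2)) = c ∧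
    2 * (x * x' - a * y * y' - b * (z * z' - a * w * w')) = d

/-- sums of two squares are values of all forms `<<a, b>>` -/
theorem sum_sq (H : HV F) (a b : Fˣ) (t : F) : Z (a : F) b (1 + t ^ 2) := by
  obtain ⟨x, y, z, w, x', y', z', w', h1, h3⟩ := H a b 1 t
  by_cases hN : x ^ 2 - a * y ^ 2 - b * (z ^ 2 - a * w ^ 2) = 0
  · have hM : x' ^ 2 - a * y' ^ 2 - b * (z' ^ 2 - a * w' ^ 2) ≠ 0 := by
      intro hM
      rw [hN, hM, sub_zero] at h1
      exact zero_ne_one h1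
    have k := quat_aux (a := (a : F)) (b := (b : F))
      (M := x ^ 2 - a * y ^ 2 - b * (z ^ 2 - a * w ^ 2))
      (p0 := x' * x - a * y' * y - b * (z' * z - a * w' * w))
      (p1 := x' * y - y' * x + b * z' * w - b * w' * z)
      (p2 := x' * z - z' * x - a * y' * w + a * w' * y)
      (p3 := x' * w - w' * x - y' * z + z' * y) hM (by ring)
    have e : 1 + t ^ 2 = (x' ^ 2 - a * y' ^ 2 - b * (z' ^ 2 - a * w' ^ 2) -
        (x ^ 2 - a * y ^ 2 - b * (z ^ 2 - a * w ^ 2))) ^ 2 +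
        (2 * (x' * x - a * y' * y - b * (z' * z - a * w' * w))) ^ 2 := by
      rw [← h3]
      have h4 : x' ^ 2 - a * y' ^ 2 - b * (z' ^ 2 - a * w' ^ 2) -
        (x ^ 2 - a * y ^ 2 - b * (z ^ 2 - a * w ^ 2)) = -1 := by linear_combination -h1
      rw [h4]
      ring
    rw [e]
    exact k
  · have k := quat_aux (a := (a : F)) (b := (b : F))
      (M := x' ^ 2 - a * y' ^ 2 - b * (z' ^ 2 - a * w' ^ 2))
      (p0 := x * x' - a * y * y' - b * (z * z' - a * w * w'))
      (p1 := x * y' - y * x' + b * z * w' - b * w * z')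
      (p2 := x * z' - z * x' - a * y * w' + a * w * y')
      (p3 := x * w' - w * x' - y * z' + z * y') hN (by ring)
    rw [h1, h3, one_pow] at k
    exact k

/-- a three-fold Pfister form representing `-1` is isotropic -/
theorem tors (h2 : (2 : F) ≠ 0) (H : HV F) (a b c : Fˣ) {k1 k2 : F} (h1 : Z (a : F) b k1)
    (hk : Z (a : F) b k2) (h : k1 - c * k2 = -1) : Z (a : F) b c := by
  obtain ⟨x, y, z, w, h1⟩ := h1
  by_cases hw : 1 + x ^ 2 = 0
  · obtain ⟨X, Y, U, W, X', Y', U', W', e1, e2⟩ := H a b c 0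
    refine ⟨X + x * X', Y + x * Y', U + x * U', W + x * W', ?_⟩
    linear_combination e1 + x * e2 + (X' ^ 2 - a * Y' ^ 2 - b * (U' ^ 2 - a * W' ^ 2)) * hw
  · obtain ⟨w0, hw0⟩ : ∃ w0 : Fˣ, (w0 : F) = 1 + x ^ 2 := ⟨Units.mk0 _ hw, Units.val_mk0 _⟩
    have ZW : ∀ f g : Fˣ, Z (f : F) g w0 := by
      intro f g
      rw [hw0]
      exact sum_sq H f g x
    have hd : (w0 : F) = (a * y ^ 2 + b * (z ^ 2 - a * w ^ 2)) + c * k2 := by
      rw [hw0]
      linear_combination h1 + h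
    by_cases hk0 : k2 = 0
    · rw [hk0, mul_zero, add_zero] at hd
      obtain ⟨e, he, -⟩ := pure_sub h2 a b w0 y z w hd
      rw [he]
      exact Z_rot h2 (Z_rot h2 (ZW e c))
    · by_cases hd0 : a * y ^ 2 + b * (z ^ 2 - a * w ^ 2) = 0
      · rw [hd0, zero_add] at hd
        have e : (c : F) = w0 * k2⁻¹ := by
          rw [hd]
          field_simp
        rw [e]
        exact Z_mul (ZW a b) (Z_inv hk)
      · obtain ⟨d, hdv⟩ : ∃ d : Fˣ, (d : F) = a * y ^ 2 + b * (z ^ 2 - a * w ^ 2) :=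
          ⟨Units.mk0 _ hd0, Units.val_mk0 _⟩
        obtain ⟨k, hkv⟩ : ∃ k : Fˣ, (k : F) = k2 := ⟨Units.mk0 _ hk0, Units.val_mk0 _⟩
        obtain ⟨e, he, -⟩ := pure_sub h2 a b d y z w hdv
        rw [← hdv, ← hkv, ← Units.val_mul] at hd
        have s1 : Z ((d * w0⁻¹ : Fˣ) : F) (c * k * w0⁻¹ : Fˣ) e := by
          apply Z_steinberg h2
          have hw' : (w0 : F) ≠ 0 := w0.ne_zero
          rw [Units.val_mul, Units.val_mul, Units.val_inv_eq_inv_val, ← add_mul, ← hd]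
          field_simp
        have s2 : Z (w0 : F) (c * k * w0⁻¹ : Fˣ) e := Z_rot h2 (Z_rot h2 (ZW _ _))
        have s3 := Z_mul1 h2 s1 s2
        rw [inv_mul_cancel_right] at s3
        have s4 : Z (d : F) w0 e := Z_rot h2 (ZW _ _)
        have s5 := Z_mul2 h2 s3 s4
        rw [inv_mul_cancel_right] at s5
        have s6 : Z (d : F) e (c * k : Fˣ) := Z_swap23' h2 s5
        have s7 : Z (d : F) e k := by
          rw [← he, hkv]
          exact hk
        rw [he]
        have s8 := Z_mul s6 (Z_inv s7)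
        have hk' : (k : F) ≠ 0 := k.ne_zero
        rw [Units.val_mul, mul_assoc, mul_inv_cancel₀ hk', mul_one] at s8
        exact s8

/-- the values of `<<a, b>>` are closed under addition -/
theorem Z_add (h2 : (2 : F) ≠ 0) (H : HV F) (a b : Fˣ) {k1 k2 : F} (h1 : Z (a : F) b k1)
    (h3 : Z (a : F) b k2) : Z (a : F) b (k1 + k2) := by
  by_cases e1 : k1 = 0
  · rw [e1, zero_add]
    exact h3
  · by_cases e2 : k1 + k2 = 0
    · rw [e2]
      exact Z_zero _ _
    · have hk : Z (a : F) b (k2 * k1⁻¹) := Z_mul h3 (Z_inv h1)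
      have e3 : 1 + k2 * k1⁻¹ ≠ 0 := by
        intro h
        apply e2
        field_simp at h
        rw [h, mul_zero]
      have k := tors h2 H a b (Units.mk0 _ e3) hk (Z_one _ _) (by
        rw [Units.val_mk0]
        ring)
      rw [Units.val_mk0] at k
      have e4 : k1 + k2 = k1 * (1 + k2 * k1⁻¹) := by
        field_simp
      rw [e4]
      exact Z_mul h1 k

/-- orderings of a field -/
structure Ordg (F : Type u) [Field F] where
  P : Set F
  add : ∀ x ∈ P, ∀ y ∈ P, x + y ∈ P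
  mul : ∀ x ∈ P, ∀ y ∈ P, x * y ∈ P
  sq : ∀ x, x ^ 2 ∈ P
  neg_one : (-1 : F) ∉ P
  total : ∀ x, x ∈ P ∨ -x ∈ P

/-- Artin-Schreier -/
theorem exists_ordg (P0 : Set F) (hadd : ∀ x ∈ P0, ∀ y ∈ P0, x + y ∈ P0)
    (hmul : ∀ x ∈ P0, ∀ y ∈ P0, x * y ∈ P0) (hsq : ∀ x, x ^ 2 ∈ P0) (hneg : (-1 : F) ∉ P0) :
    ∃ O : Ordg F, P0 ⊆ O.P := by
  let S : Set (Set F) := {P | (∀ x ∈ P, ∀ y ∈ P, x + y ∈ P) ∧ (∀ x ∈ P, ∀ y ∈ P, x * y ∈ P) ∧
    (∀ x, x ^ 2 ∈ P) ∧ (-1 : F) ∉ P}
  obtain ⟨m, hm, hmax⟩ := zorn_subset_nonempty S (by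
    intro c hc hchain hne
    refine ⟨⋃₀ c, ⟨?_, ?_, ?_, ?_⟩, fun s hs => Set.subset_sUnion_of_mem hs⟩
    · rintro x ⟨s, hs, hx⟩ y ⟨t, ht, hy⟩
      rcases hchain.total hs ht with h | h
      · exact ⟨t, ht, (hc ht).1 x (h hx) y hy⟩
      · exact ⟨s, hs, (hc hs).1 x hx y (h hy)⟩
    · rintro x ⟨s, hs, hx⟩ y ⟨t, ht, hy⟩
      rcases hchain.total hs ht with h | h
      · exact ⟨t, ht, (hc ht).2.1 x (h hx) y hy⟩
      · exact ⟨s, hs, (hc hs).2.1 x hx y (h hy)⟩
    · intro x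
      obtain ⟨s, hs⟩ := hne
      exact ⟨s, hs, (hc hs).2.2.1 x⟩
    · rintro ⟨s, hs, hx⟩
      exact (hc hs).2.2.2 hx) P0 ⟨hadd, hmul, hsq, hneg⟩
  obtain ⟨madd, mmul, msq, mneg⟩ := hmax.prop
  refine ⟨⟨m, madd, mmul, msq, mneg, ?_⟩, hm⟩
  intro x
  by_contra hcon
  rw [not_or] at hcon
  obtain ⟨hx1, hx2⟩ := hcon
  have h0 : (0 : F) ∈ m := by
    have := msq 0
    rwa [zero_pow two_ne_zero] at this
  have h1 : (1 : F) ∈ m := by
    have := msq 1
    rwa [one_pow] at this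
  let Q : Set F := {r | ∃ p ∈ m, ∃ q ∈ m, r = p + x * q}
  have hQ : Q ∉ S := by
    intro hQ
    have hle : m ⊆ Q := by
      intro p hp
      exact ⟨p, hp, 0, h0, by ring⟩
    have hge := hmax.le_of_ge hQ hle
    apply hx1
    apply hge
    exact ⟨0, h0, 1, h1, by ring⟩
  apply hQ
  refine ⟨?_, ?_, ?_, ?_⟩
  · rintro r ⟨p, hp, q, hq, rfl⟩ r' ⟨p', hp', q', hq', rfl⟩
    exact ⟨p + p', madd _ hp _ hp', q + q', madd _ hq _ hq', by ring⟩
  · rintro r ⟨p, hp, q, hq, rfl⟩ r' ⟨p', hp', q', hq', rfl⟩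
    exact ⟨p * p' + x ^ 2 * (q * q'), madd _ (mmul _ hp _ hp') _ (mmul _ (msq x) _ (mmul _ hq _ hq')),
      p * q' + q * p', madd _ (mmul _ hp _ hq') _ (mmul _ hq _ hp'), by ring⟩
  · intro r
    exact ⟨r ^ 2, msq r, 0, h0, by ring⟩
  · rintro ⟨p, hp, q, hq, h⟩
    by_cases hq0 : q = 0
    · rw [hq0, mul_zero, add_zero] at h
      rw [h] at mneg
      exact mneg hp
    · apply hx2
      have e : -x = (1 + p) * q * (q⁻¹) ^ 2 := by
        field_simp
        linear_combination h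
      rw [e]
      exact mmul _ (mmul _ (madd _ h1 _ hp) _ hq) _ (msq _)

/-- if no ordering makes `a`, `b`, `c` negative then `<<a, b, c>>` is isotropic -/
theorem exists_neg (h2 : (2 : F) ≠ 0) (H : HV F) (a b c : Fˣ) (h : ¬ Z (a : F) b c) :
    ∃ O : Ordg F, -(a : F) ∈ O.P ∧ -(b : F) ∈ O.P ∧ -(c : F) ∈ O.P := by
  let P0 : Set F := {r | ∃ k1 k2, Z (a : F) b k1 ∧ Z (a : F) b k2 ∧ r = k1 - c * k2}
  obtain ⟨O, hO⟩ := exists_ordg P0 (by
    rintro r ⟨k1, k2, h1, h3, rfl⟩ r' ⟨k1', k2', h1', h3', rfl⟩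
    exact ⟨k1 + k1', k2 + k2', Z_add h2 H a b h1 h1', Z_add h2 H a b h3 h3', by ring⟩) (by
    rintro r ⟨k1, k2, h1, h3, rfl⟩ r' ⟨k1', k2', h1', h3', rfl⟩
    exact ⟨k1 * k1' + c ^ 2 * (k2 * k2'), k1 * k2' + k2 * k1',
      Z_add h2 H a b (Z_mul h1 h1') (Z_mul (Z_sq _ _ _) (Z_mul h3 h3')),
      Z_add h2 H a b (Z_mul h1 h3') (Z_mul h3 h1'), by ring⟩) (by
    intro x
    exact ⟨x ^ 2, 0, Z_sq _ _ _, Z_zero _ _, by ring⟩) (by
    rintro ⟨k1, k2, h1, h3, h4⟩
    exact h (tors h2 H a b c h1 h3 h4.symm))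
  refine ⟨O, hO ?_, hO ?_, hO ?_⟩
  · exact ⟨-a, 0, ⟨0, 1, 0, 0, by ring⟩, Z_zero _ _, by ring⟩
  · exact ⟨-b, 0, ⟨0, 0, 1, 0, by ring⟩, Z_zero _ _, by ring⟩
  · exact ⟨0, 1, Z_zero _ _, Z_one _ _, by ring⟩

theorem not_both (O : Ordg F) (a : Fˣ) (h : (a : F) ∈ O.P) (h' : -(a : F) ∈ O.P) : False := by
  apply O.neg_one
  have ha : (a : F) ≠ 0 := a.ne_zero
  have e : (-1 : F) = (a : F) * (-(a : F)) * ((a : F)⁻¹) ^ 2 := by
    field_simp
  rw [e]
  exact O.mul _ (O.mul _ h _ h') _ (O.sq _)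

open Classical in
/-- the sign homomorphism `K^M_*(F) / 2 → 𝔽_2` of an ordering -/
noncomputable def chi (O : Ordg F) : KM 2 F →ₐ[ZMod 2] ZMod 2 :=
  liftKM (FreeAlgebra.lift (ZMod 2) (fun a : Fˣ => if (a : F) ∈ O.P then (0 : ZMod 2) else 1)) (by
    intro x y h
    cases h with
    | mul a b =>
      rw [map_add, FreeAlgebra.lift_ι_apply, FreeAlgebra.lift_ι_apply, FreeAlgebra.lift_ι_apply]
      by_cases ha : (a : F) ∈ O.P
      · by_cases hb : (b : F) ∈ O.P
        · have : ((a * b : Fˣ) : F) ∈ O.P := by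
            rw [Units.val_mul]
            exact O.mul _ ha _ hb
          rw [if_pos ha, if_pos hb, if_pos this, add_zero]
        · have hb' := (O.total (b : F)).resolve_left hb
          have : ((a * b : Fˣ) : F) ∉ O.P := by
            intro h
            apply not_both O (a * b) h
            rw [Units.val_mul, ← mul_neg]
            exact O.mul _ ha _ hb'
          rw [if_pos ha, if_neg hb, if_neg this, zero_add]
      · have ha' := (O.total (a : F)).resolve_left ha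
        by_cases hb : (b : F) ∈ O.P
        · have : ((a * b : Fˣ) : F) ∉ O.P := by
            intro h
            apply not_both O (a * b) h
            rw [Units.val_mul, ← neg_mul]
            exact O.mul _ ha' _ hb
          rw [if_neg ha, if_pos hb, if_neg this, add_zero]
        · have hb' := (O.total (b : F)).resolve_left hb
          have : ((a * b : Fˣ) : F) ∈ O.P := by
            rw [Units.val_mul, ← neg_mul_neg]
            exact O.mul _ ha' _ hb'
          rw [if_neg ha, if_neg hb, if_pos this]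
          rfl
    | steinberg a b h =>
      rw [map_mul, FreeAlgebra.lift_ι_apply, FreeAlgebra.lift_ι_apply, map_zero]
      by_cases ha : (a : F) ∈ O.P
      · rw [if_pos ha, zero_mul]
      · by_cases hb : (b : F) ∈ O.P
        · rw [if_pos hb, mul_zero]
        · exfalso
          apply O.neg_one
          have ha' := (O.total (a : F)).resolve_left ha
          have hb' := (O.total (b : F)).resolve_left hb
          rw [← h, neg_add]
          exact O.add _ ha' _ hb')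

open Classical in
theorem chi_sym (O : Ordg F) (a : Fˣ) : chi O (sym 2 a) = if (a : F) ∈ O.P then 0 else 1 :=
  (liftKM_quo _ _ _).trans (FreeAlgebra.lift_ι_apply _ _)

theorem chi_neg_one (O : Ordg F) : chi O (sym 2 (-1 : Fˣ)) = 1 := by
  classical
  rw [chi_sym, if_neg]
  rw [Units.val_neg, Units.val_one]
  exact O.neg_one

theorem chi_of_neg (O : Ordg F) (a : Fˣ) (h : -(a : F) ∈ O.P) : chi O (sym 2 a) = 1 := by
  classical
  rw [chi_sym, if_neg]
  intro h'
  exact not_both O a h' h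

theorem chi_mem {O : Ordg F} {a : Fˣ} (h : chi O (sym 2 a) = 0) : (a : F) ∈ O.P := by
  classical
  rw [chi_sym] at h
  by_contra hn
  rw [if_neg hn] at h
  exact one_ne_zero h

theorem chi_of_mem {O : Ordg F} {a : Fˣ} (h : (a : F) ∈ O.P) : chi O (sym 2 a) = 0 := by
  classical
  rw [chi_sym, if_pos h]

/-- the local-global principle -/
theorem Z_of_chi (h2 : (2 : F) ≠ 0) (H : HV F) (a b c : Fˣ)
    (h : ∀ O : Ordg F, chi O (sym 2 a) * chi O (sym 2 b) * chi O (sym 2 c) = 0) :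
    Z (a : F) b c := by
  by_contra hn
  obtain ⟨O, ha, hb, hc⟩ := exists_neg h2 H a b c hn
  have := h O
  rw [chi_of_neg O a ha, chi_of_neg O b hb, chi_of_neg O c hc, one_mul, one_mul] at this
  exact one_ne_zero this

end Pool.Agent.KMil
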