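import Pool.Agent.KMil.Two

/-!
Values of two-fold Pfister forms over a field `F` such that these forms are universal over
`F(√-1)`.
-/

set_option autoImplicit false

namespace Pool.Agent.KMil

universe u v

section calculus

variable {F : Type u} [Field F]

/-- `c` is a value of the form `<<a, b>>` -/
def Z (a b c : F) : Prop :=
  ∃ x y z w : F, x ^ 2 - a * y ^ 2 - b * (z ^ 2 - a * w ^ 2) = c

theorem Z_zero (a b : F) : Z a b 0 := ⟨0, 0, 0, 0, by ring⟩

theorem Z_one (a b : F) : Z a b 1 := ⟨1, 0, 0, 0, by ring⟩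

theorem Z_sq (a b t : F) : Z a b (t ^ 2) := ⟨t, 0, 0, 0, by ring⟩

theorem Z_norm (a b x y : F) : Z a b (x ^ 2 - a * y ^ 2) := ⟨x, y, 0, 0, by ring⟩

theorem Z_mul {a b c c' : F} (h : Z a b c) (h' : Z a b c') : Z a b (c * c') := by
  obtain ⟨x, y, z, w, rfl⟩ := h
  obtain ⟨x', y', z', w', rfl⟩ := h'
  exact ⟨x * x' + a * y * y' + b * z * z' - a * b * w * w',
    x * y' + y * x' - b * z * w' + b * w * z',
    x * z' + z * x' + a * y * w' - a * w * y', x * w' + w * x' + y * z' - z * y', by ring⟩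

theorem Z_inv {a b c : F} (h : Z a b c) : Z a b c⁻¹ := by
  by_cases hc : c = 0
  · rw [hc, inv_zero]
    exact Z_zero a b
  · obtain ⟨x, y, z, w, h⟩ := h
    refine ⟨x / c, y / c, z / c, w / c, ?_⟩
    field_simp
    linear_combination h

theorem Z_swap12 {a b c : F} (h : Z a b c) : Z b a c := by
  obtain ⟨x, y, z, w, rfl⟩ := h
  exact ⟨x, z, y, w, by ring⟩

theorem Z_swap23 (h2 : (2 : F) ≠ 0) {a b c : F} (hc : c ≠ 0) (h : Z a b c) : Z a c b := by
  obtain ⟨x, y, z, w, h⟩ := h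
  by_cases hQ : z ^ 2 - a * w ^ 2 = 0
  · have hP : x ^ 2 - a * y ^ 2 = c := by
      rw [hQ, mul_zero, sub_zero] at h
      exact h
    refine ⟨(b + 1) / 2, 0, x / c * ((b - 1) / 2), y / c * ((b - 1) / 2), ?_⟩
    field_simp
    linear_combination (-(b - 1) ^ 2) * hP
  · refine ⟨(x * z + a * y * w) / (z ^ 2 - a * w ^ 2), (x * w + y * z) / (z ^ 2 - a * w ^ 2),
      z / (z ^ 2 - a * w ^ 2), w / (z ^ 2 - a * w ^ 2), ?_⟩
    field_simp
    linear_combination (z ^ 2 - a * w ^ 2) * h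

theorem Z_iso {A B : F} (h0 : A + B ≠ 0) (c : F) : Z A B c ↔ Z (A + B) (-(A * B)) c := by
  constructor
  · rintro ⟨X, Y, U, W, h⟩
    refine ⟨X, (A * Y + B * U) / (A + B), W, (Y - U) / (A + B), ?_⟩
    field_simp
    linear_combination (A + B) * h
  · rintro ⟨X, Y, U, W, h⟩
    refine ⟨X, Y + B * W, Y - A * W, U, ?_⟩
    linear_combination h

theorem Z_scale {a : F} (b c : F) {x : F} (hx : x ≠ 0) : Z a b c ↔ Z (a * x ^ 2) b c := by
  constructor
  · rintro ⟨X, Y, U, W, h⟩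
    refine ⟨X, Y / x, U, W / x, ?_⟩
    field_simp
    linear_combination h
  · rintro ⟨X, Y, U, W, h⟩
    refine ⟨X, Y * x, U, W * x, ?_⟩
    linear_combination h

/-- the key norm principle, first form -/
theorem quat_aux {a b N M p0 p1 p2 p3 : F} (hN : N ≠ 0)
    (hp : p0 ^ 2 - a * p1 ^ 2 - b * (p2 ^ 2 - a * p3 ^ 2) = N * M) :
    Z a b ((N - M) ^ 2 + (2 * p0) ^ 2) := by
  refine ⟨N - M + 2 * p0 ^ 2 / N, 2 * p0 * p1 / N, 2 * p0 * p2 / N, 2 * p0 * p3 / N, ?_⟩
  field_simp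
  linear_combination (4 * p0 ^ 2) * hp

end calculus

section units

variable {F : Type u} [Field F] (h2 : (2 : F) ≠ 0)

include h2

theorem Z_rot {a b c : Fˣ} (h : Z (a : F) b c) : Z (b : F) c a :=
  Z_swap23 h2 c.ne_zero (Z_swap12 h)

theorem Z_swap23' {a b c : Fˣ} (h : Z (a : F) b c) : Z (a : F) c b :=
  Z_swap23 h2 c.ne_zero h

theorem Z_mul1 {a a' b c : Fˣ} (h : Z (a : F) b c) (h' : Z (a' : F) b c) :
    Z ((a * a' : Fˣ) : F) b c := by
  have k : Z (b : F) c ((a * a' : Fˣ) : F) := by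
    rw [Units.val_mul]
    exact Z_mul (Z_rot h2 h) (Z_rot h2 h')
  exact Z_rot h2 (Z_rot h2 k)

theorem Z_mul2 {a b b' c : Fˣ} (h : Z (a : F) b c) (h' : Z (a : F) b' c) :
    Z (a : F) ((b * b' : Fˣ) : F) c :=
  Z_swap12 (Z_mul1 h2 (Z_swap12 h) (Z_swap12 h'))

theorem Z_inv1 {a b c : Fˣ} (h : Z (a : F) b c) : Z ((a⁻¹ : Fˣ) : F) b c := by
  have k : Z (b : F) c ((a⁻¹ : Fˣ) : F) := by
    rw [Units.val_inv_eq_inv_val]
    exact Z_inv (Z_rot h2 h)
  exact Z_rot h2 (Z_rot h2 k)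

theorem Z_inv2 {a b c : Fˣ} (h : Z (a : F) b c) : Z (a : F) ((b⁻¹ : Fˣ) : F) c :=
  Z_swap12 (Z_inv1 h2 (Z_swap12 h))

theorem Z_steinberg {a b : Fˣ} (c : Fˣ) (h : (a : F) + b = 1) : Z (a : F) b c := by
  have k : Z (a : F) c b := by
    rw [show (b : F) = 1 ^ 2 - a * 1 ^ 2 by linear_combination h]
    exact Z_norm _ _ _ _
  exact Z_swap23' h2 k

theorem Z_norm2 {a n : Fˣ} (c : Fˣ) (x y : F) (h : (n : F) = x ^ 2 - a * y ^ 2) :
    Z (a : F) n c := by
  have k : Z (a : F) c n := by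
    rw [h]
    exact Z_norm _ _ _ _
  exact Z_swap23' h2 k

end units

theorem sym_self {F : Type u} [Field F] (d : Fˣ) :
    sym 2 d * sym 2 d = sym 2 d * sym 2 (-1 : Fˣ) := by
  have h1 := sym_neg_self 2 d
  have h3 : sym 2 (-d) = sym 2 (-1 : Fˣ) + sym 2 d := by
    rw [← sym_mul, neg_one_mul]
  rw [h3, mul_add] at h1
  have h4 := eq_neg_of_add_eq_zero_left h1
  rw [neg_eq] at h4
  exact h4.symm

theorem sym_neg {F : Type u} [Field F] (d : Fˣ) : sym 2 (-d) = sym 2 (-1 : Fˣ) + sym 2 d := by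
  rw [← sym_mul, neg_one_mul]

theorem sym_rel {F : Type u} [Field F] {a b d : Fˣ} (h : (d : F) = a + b) :
    sym 2 a * sym 2 b = sym 2 d * sym 2 (-(a * b)) := by
  have k := sym_steinberg 2 (a * d⁻¹) (b * d⁻¹) (by
    have hd0 : (a : F) + b ≠ 0 := by
      rw [← h]
      exact d.ne_zero
    rw [Units.val_mul, Units.val_mul, Units.val_inv_eq_inv_val, h]
    field_simp)
  rw [sym_mul, sym_mul, sym_inv, neg_eq] at k
  rw [sym_neg, sym_mul, mul_add, mul_add, ← sym_self]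
  have k' : sym 2 a * sym 2 b + (sym 2 d * sym 2 d + (sym 2 d * sym 2 a +
      sym 2 d * sym 2 b)) = 0 := by
    rw [← k, sym_comm d a]
    noncomm_ring
  have k2 := eq_neg_of_add_eq_zero_left k'
  rw [neg_eq] at k2
  exact k2

/-- the pure subform lemma -/
theorem pure_sub {F : Type u} [Field F] (h2 : (2 : F) ≠ 0) (a b d : Fˣ) (x y z : F)
    (hd : (d : F) = a * x ^ 2 + b * (y ^ 2 - a * z ^ 2)) :
    ∃ e : Fˣ, (∀ c : Fˣ, Z (a : F) b c ↔ Z (d : F) e c) ∧
      sym 2 a * sym 2 b = sym 2 d * sym 2 e := by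
  by_cases hm : y ^ 2 - a * z ^ 2 = 0
  · rw [hm, mul_zero, add_zero] at hd
    have hx : x ≠ 0 := by
      rintro rfl
      apply d.ne_zero
      rw [hd]
      ring
    refine ⟨b, fun c => ?_, ?_⟩
    · rw [hd]
      exact Z_scale _ _ hx
    · have e1 : d = a * (Units.mk0 x hx * Units.mk0 x hx) := by
        apply Units.ext
        rw [hd]
        simp
        ring
      rw [e1, sym_mul, sym_sq, add_zero]
  · obtain ⟨m, hmv⟩ : ∃ m : Fˣ, (m : F) = y ^ 2 - a * z ^ 2 := ⟨Units.mk0 _ hm, Units.val_mk0 _⟩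
    have hma : sym 2 m * sym 2 a = 0 := norm_sym a m y z hmv
    have hmZ : ∀ c : Fˣ, Z (a : F) m c := fun c => Z_norm2 h2 c y z hmv
    have hZm : ∀ c : Fˣ, Z (a : F) b c ↔ Z (a : F) ((b * m : Fˣ) : F) c := by
      intro c
      constructor
      · intro h
        exact Z_mul2 h2 h (hmZ c)
      · intro h
        have := Z_mul2 h2 h (Z_inv2 h2 (hmZ c))
        rwa [mul_inv_cancel_right] at this
    have hKm : sym 2 a * sym 2 b = sym 2 a * sym 2 (b * m) := by
      rw [sym_mul, mul_add, sym_comm a m, hma, add_zero]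
    by_cases hx : x = 0
    · have e1 : d = b * m := by
        apply Units.ext
        rw [hd, hx, Units.val_mul, hmv]
        ring
      refine ⟨a, fun c => ?_, ?_⟩
      · rw [e1, hZm]
        exact ⟨Z_swap12, Z_swap12⟩
      · rw [e1, hKm, sym_comm]
    · obtain ⟨a', ha'v, ha's⟩ : ∃ a' : Fˣ, (a' : F) = a * x ^ 2 ∧ sym 2 a' = sym 2 a := by
        refine ⟨a * (Units.mk0 x hx * Units.mk0 x hx), ?_, ?_⟩
        · simp
          ring
        · rw [sym_mul, sym_sq, add_zero]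
      obtain ⟨b', hb'⟩ : ∃ b' : Fˣ, b' = b * m := ⟨_, rfl⟩
      rw [← hb'] at hZm hKm
      have hdv : (d : F) = a' + b' := by rw [hd, ha'v, hb', Units.val_mul, hmv]
      have hd0 : (a' : F) + b' ≠ 0 := by
        rw [← hdv]
        exact d.ne_zero
      refine ⟨-(a' * b'), fun c => ?_, ?_⟩
      · have hs : Z (a : F) b' c ↔ Z (a' : F) b' c := by
          rw [ha'v]
          exact Z_scale _ _ hx
        rw [hZm, hs, hdv, Units.val_neg, Units.val_mul]
        exact Z_iso hd0 _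
      · rw [hKm, ← ha's]
        exact sym_rel hdv

end Pool.Agent.KMil
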